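import Pool.Agent.W661.RC.Stm

/-!
# Project RC (helper683 for helper661): basic lemmas about `hs`, `tr`, `Le`, `IsPr`, `en`, `gg`
-/

set_option autoImplicit false

namespace Pool.Agent.W683.RC

open Matrix
open scoped ComplexOrder
open Pool.Agent.W661.RC

noncomputable section

variable {m n l : Type} [Fintype m] [Fintype n] [Fintype l]

/-! ### The Hilbert-Schmidt norm -/

/-- a matrix as a vector -/
def vc (x : Matrix m n ℂ) : EuclideanSpace ℂ (m × n) := WithLp.toLp 2 (fun p => x p.1 p.2)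

omit [Fintype m] [Fintype n] in
lemma vc_apply (x : Matrix m n ℂ) (p : m × n) : vc x p = x p.1 p.2 := rfl

omit [Fintype m] [Fintype n] in
lemma vc_add (x y : Matrix m n ℂ) : vc (x + y) = vc x + vc y := rfl

omit [Fintype m] [Fintype n] in
lemma vc_sub (x y : Matrix m n ℂ) : vc (x - y) = vc x - vc y := rfl

omit [Fintype m] [Fintype n] in
lemma vc_neg (x : Matrix m n ℂ) : vc (-x) = -vc x := rfl

omit [Fintype m] [Fintype n] in
lemma vc_smul (c : ℂ) (x : Matrix m n ℂ) : vc (c • x) = c • vc x := rfl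

omit [Fintype m] [Fintype n] in
lemma vc_zero : vc (0 : Matrix m n ℂ) = 0 := rfl

omit [Fintype m] [Fintype n] in
lemma vc_sum {ι : Type*} (s : Finset ι) (f : ι → Matrix m n ℂ) :
    vc (∑ i ∈ s, f i) = ∑ i ∈ s, vc (f i) := by
  classical
  induction s using Finset.induction_on with
  | empty => simp [vc_zero]
  | insert a s ha ih => rw [Finset.sum_insert ha, Finset.sum_insert ha, vc_add, ih]

lemma hs_eq_norm (x : Matrix m n ℂ) : hs x = ‖vc x‖ ^ 2 := by
  rw [EuclideanSpace.norm_sq_eq, Fintype.sum_prod_type]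
  rfl

lemma sqrt_hs (x : Matrix m n ℂ) : √(hs x) = ‖vc x‖ := by
  rw [hs_eq_norm, Real.sqrt_sq (norm_nonneg _)]

lemma inner_vc (x y : Matrix m n ℂ) : inner ℂ (vc x) (vc y) = Matrix.trace (xᴴ * y) := by
  rw [PiLp.inner_apply, Fintype.sum_prod_type, Finset.sum_comm]
  simp only [Matrix.trace, Matrix.diag, Matrix.mul_apply, Matrix.conjTranspose_apply, vc_apply,
    RCLike.inner_apply]
  exact Finset.sum_congr rfl fun j _ => Finset.sum_congr rfl fun i _ => mul_comm _ _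

lemma hs_nonneg (x : Matrix m n ℂ) : 0 ≤ hs x := by
  rw [hs_eq_norm]
  positivity

lemma trace_conjTranspose_mul_self (x : Matrix m n ℂ) :
    Matrix.trace (xᴴ * x) = ((hs x : ℝ) : ℂ) := by
  rw [← inner_vc, inner_self_eq_norm_sq_to_K, hs_eq_norm]
  push_cast
  rfl

lemma hs_eq (x : Matrix m n ℂ) : hs x = (Matrix.trace (xᴴ * x)).re := by
  rw [trace_conjTranspose_mul_self, Complex.ofReal_re]

lemma hs_eq' (x : Matrix m n ℂ) : hs x = (Matrix.trace (x * xᴴ)).re := by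
  rw [hs_eq, Matrix.trace_mul_comm]

lemma hs_eq_tr (x : Matrix m n ℂ) : hs x = tr (xᴴ * x) := hs_eq x

lemma hs_eq_tr' (x : Matrix m n ℂ) : hs x = tr (x * xᴴ) := hs_eq' x

lemma hs_eq_zero_iff {x : Matrix m n ℂ} : hs x = 0 ↔ x = 0 := by
  rw [hs_eq_norm, sq_eq_zero_iff, norm_eq_zero]
  constructor
  · intro h
    ext i j
    have := congrArg (fun v : EuclideanSpace ℂ (m × n) => v (i, j)) h
    simpa [vc_apply] using this
  · rintro rfl
    rfl

lemma hs_pos {x : Matrix m n ℂ} (h : x ≠ 0) : 0 < hs x :=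
  lt_of_le_of_ne (hs_nonneg x) fun h0 => h (hs_eq_zero_iff.1 h0.symm)

lemma hs_zero : hs (0 : Matrix m n ℂ) = 0 := hs_eq_zero_iff.2 rfl

lemma hs_conjTranspose (x : Matrix m n ℂ) : hs xᴴ = hs x := by
  rw [hs_eq, hs_eq', Matrix.conjTranspose_conjTranspose]

lemma hs_neg (x : Matrix m n ℂ) : hs (-x) = hs x := by
  rw [hs_eq_norm, hs_eq_norm, vc_neg, norm_neg]

lemma hs_sub_comm (x y : Matrix m n ℂ) : hs (x - y) = hs (y - x) := by
  rw [← hs_neg, neg_sub]

lemma hs_smul (c : ℂ) (x : Matrix m n ℂ) : hs (c • x) = ‖c‖ ^ 2 * hs x := by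
  rw [hs_eq_norm, hs_eq_norm, vc_smul, norm_smul, mul_pow]

lemma hs_smul_real (c : ℝ) (x : Matrix m n ℂ) : hs ((c : ℂ) • x) = c ^ 2 * hs x := by
  rw [hs_smul, Complex.norm_real, Real.norm_eq_abs, sq_abs]

lemma sqrt_hs_add_le (x y : Matrix m n ℂ) : √(hs (x + y)) ≤ √(hs x) + √(hs y) := by
  rw [sqrt_hs, sqrt_hs, sqrt_hs, vc_add]
  exact norm_add_le _ _

lemma sqrt_hs_sub_le (x y : Matrix m n ℂ) : √(hs (x - y)) ≤ √(hs x) + √(hs y) := by
  rw [sqrt_hs, sqrt_hs, sqrt_hs, vc_sub]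
  exact norm_sub_le _ _

lemma sqrt_hs_sum_le {ι : Type*} (s : Finset ι) (f : ι → Matrix m n ℂ) :
    √(hs (∑ i ∈ s, f i)) ≤ ∑ i ∈ s, √(hs (f i)) := by
  rw [sqrt_hs, vc_sum]
  refine (norm_sum_le _ _).trans (le_of_eq ?_)
  exact Finset.sum_congr rfl fun i _ => (sqrt_hs _).symm

lemma abs_sqrt_hs_sub_le (x y : Matrix m n ℂ) : |√(hs x) - √(hs y)| ≤ √(hs (x - y)) := by
  rw [sqrt_hs, sqrt_hs, sqrt_hs, vc_sub]
  exact abs_norm_sub_norm_le _ _

lemma hs_add_le (x y : Matrix m n ℂ) : hs (x + y) ≤ 2 * hs x + 2 * hs y := by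
  have h := norm_add_le (vc x) (vc y)
  rw [← vc_add] at h
  rw [hs_eq_norm, hs_eq_norm, hs_eq_norm]
  nlinarith [norm_nonneg (vc x), norm_nonneg (vc y), norm_nonneg (vc (x + y)),
    sq_nonneg (‖vc x‖ - ‖vc y‖)]

lemma hs_sub_le (x y : Matrix m n ℂ) : hs (x - y) ≤ 2 * hs x + 2 * hs y := by
  have h := hs_add_le x (-y)
  rwa [← sub_eq_add_neg, hs_neg] at h

lemma hs_add3_le (x y z : Matrix m n ℂ) : hs (x + y + z) ≤ 3 * hs x + 3 * hs y + 3 * hs z := by
  have h := norm_add₃_le (a := vc x) (b := vc y) (c := vc z)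
  rw [← vc_add, ← vc_add] at h
  rw [hs_eq_norm, hs_eq_norm, hs_eq_norm, hs_eq_norm]
  nlinarith [norm_nonneg (vc x), norm_nonneg (vc y), norm_nonneg (vc z),
    norm_nonneg (vc (x + y + z)), sq_nonneg (‖vc x‖ - ‖vc y‖), sq_nonneg (‖vc x‖ - ‖vc z‖),
    sq_nonneg (‖vc y‖ - ‖vc z‖)]

lemma hs_sum_le {ι : Type*} (s : Finset ι) (f : ι → Matrix m n ℂ) :
    hs (∑ i ∈ s, f i) ≤ (s.card : ℝ) * ∑ i ∈ s, hs (f i) := by
  have h1 := sqrt_hs_sum_le s f
  have h2 : (√(hs (∑ i ∈ s, f i))) ^ 2 ≤ (∑ i ∈ s, √(hs (f i))) ^ 2 :=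
    pow_le_pow_left₀ (Real.sqrt_nonneg _) h1 2
  rw [Real.sq_sqrt (hs_nonneg _)] at h2
  refine h2.trans ((sq_sum_le_card_mul_sum_sq).trans (le_of_eq ?_))
  congr 1
  exact Finset.sum_congr rfl fun i _ => Real.sq_sqrt (hs_nonneg _)

/-- Cauchy-Schwarz -/
lemma norm_trace_le (x y : Matrix m n ℂ) :
    ‖Matrix.trace (xᴴ * y)‖ ≤ √(hs x) * √(hs y) := by
  rw [← inner_vc, sqrt_hs, sqrt_hs]
  exact norm_inner_le_norm _ _

lemma abs_tr_le (x y : Matrix m n ℂ) : |tr (xᴴ * y)| ≤ √(hs x) * √(hs y) :=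
  (Complex.abs_re_le_norm _).trans (norm_trace_le x y)

lemma abs_tr_mul_le (x : Matrix m n ℂ) (y : Matrix n m ℂ) :
    |tr (x * y)| ≤ √(hs x) * √(hs y) := by
  have h := abs_tr_le xᴴ y
  rwa [Matrix.conjTranspose_conjTranspose, hs_conjTranspose] at h

lemma tr_mul_le (x : Matrix m n ℂ) (y : Matrix n m ℂ) :
    tr (x * y) ≤ √(hs x) * √(hs y) := (le_abs_self _).trans (abs_tr_mul_le x y)

lemma tr_conj_mul_le (x y : Matrix m n ℂ) : tr (xᴴ * y) ≤ √(hs x) * √(hs y) :=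
  (le_abs_self _).trans (abs_tr_le x y)

/-- weighted Cauchy-Schwarz -/
lemma two_tr_conj_mul_le (x y : Matrix m n ℂ) : 2 * tr (xᴴ * y) ≤ hs x + hs y := by
  have h := tr_conj_mul_le x y
  have h1 := Real.sq_sqrt (hs_nonneg x)
  have h2 := Real.sq_sqrt (hs_nonneg y)
  nlinarith [sq_nonneg (√(hs x) - √(hs y))]

/-! ### The trace -/

lemma tr_add (x y : Matrix n n ℂ) : tr (x + y) = tr x + tr y := by
  simp [tr, Matrix.trace_add]

lemma tr_sub (x y : Matrix n n ℂ) : tr (x - y) = tr x - tr y := by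
  simp [tr, Matrix.trace_sub]

lemma tr_neg (x : Matrix n n ℂ) : tr (-x) = -tr x := by
  simp [tr, Matrix.trace_neg]

lemma tr_zero : tr (0 : Matrix n n ℂ) = 0 := by
  simp [tr]

lemma tr_smul (c : ℝ) (x : Matrix n n ℂ) : tr ((c : ℂ) • x) = c * tr x := by
  simp [tr, Matrix.trace_smul]

lemma tr_sum {ι : Type*} (s : Finset ι) (f : ι → Matrix n n ℂ) :
    tr (∑ i ∈ s, f i) = ∑ i ∈ s, tr (f i) := by
  simp [tr, Matrix.trace_sum]

lemma tr_mul_comm (x : Matrix m n ℂ) (y : Matrix n m ℂ) : tr (x * y) = tr (y * x) := by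
  unfold tr
  rw [Matrix.trace_mul_comm]

lemma tr_mul_cycle (x : Matrix m n ℂ) (y : Matrix n l ℂ) (z : Matrix l m ℂ) :
    tr (x * y * z) = tr (z * x * y) := by
  rw [tr_mul_comm, Matrix.mul_assoc]

lemma tr_conjTranspose (x : Matrix n n ℂ) : tr xᴴ = tr x := by
  simp [tr, Matrix.trace_conjTranspose]

lemma tr_one (d : ℕ) : tr (1 : Mt d) = d := by
  simp [tr]

lemma tr_nonneg {x : Matrix n n ℂ} (h : x.PosSemidef) : 0 ≤ tr x :=
  (Complex.le_def.1 h.trace_nonneg).1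

/-- the trace of a positive matrix is real -/
lemma trace_eq_tr {x : Matrix n n ℂ} (h : x.IsHermitian) : Matrix.trace x = ((tr x : ℝ) : ℂ) := by
  have h1 : (Matrix.trace x).im = 0 := by
    have h2 := Matrix.trace_conjTranspose x
    rw [h.eq] at h2
    have h3 := congrArg Complex.im h2
    simp at h3
    linarith
  apply Complex.ext
  · simp [tr]
  · simp [h1]

/-- factorisation of a positive matrix -/
lemma exists_fac {a : Matrix n n ℂ} (h : a.PosSemidef) : ∃ b : Matrix n n ℂ, a = bᴴ * b := by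
  classical
  open scoped MatrixOrder in
  obtain ⟨b, hb⟩ := CStarAlgebra.nonneg_iff_eq_star_mul_self.mp h.nonneg
  exact ⟨b, hb⟩

/-- a positive square root, commuting with everything that commutes with `a` -/
lemma exists_sqrt {a : Matrix n n ℂ} (h : a.PosSemidef) :
    ∃ b : Matrix n n ℂ, b.PosSemidef ∧ a = b * b := by
  classical
  open scoped MatrixOrder in
  exact ⟨CFC.sqrt a, (CFC.sqrt_nonneg a).posSemidef, (CFC.sqrt_mul_sqrt_self a h.nonneg).symm⟩

lemma tr_mul_nonneg {a b : Matrix n n ℂ} (ha : a.PosSemidef) (hb : b.PosSemidef) :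
    0 ≤ tr (a * b) := by
  obtain ⟨x, rfl⟩ := exists_fac ha
  obtain ⟨y, rfl⟩ := exists_fac hb
  have h1 : tr (xᴴ * x * (yᴴ * y)) = hs (x * yᴴ) := by
    rw [hs_eq_tr, Matrix.conjTranspose_mul, Matrix.conjTranspose_conjTranspose,
      ← Matrix.mul_assoc, tr_mul_comm, Matrix.mul_assoc, Matrix.mul_assoc]
  rw [h1]
  exact hs_nonneg _

/-! ### The order -/

lemma Le_refl (a : Matrix n n ℂ) : Le a a := by
  unfold Le
  rw [sub_self]
  exact Matrix.PosSemidef.zero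

lemma Le_trans {a b c : Matrix n n ℂ} (h1 : Le a b) (h2 : Le b c) : Le a c := by
  unfold Le at *
  have : c - a = (c - b) + (b - a) := by abel
  rw [this]
  exact h2.add h1

lemma Le_add {a b c e : Matrix n n ℂ} (h1 : Le a b) (h2 : Le c e) : Le (a + c) (b + e) := by
  unfold Le at *
  have : b + e - (a + c) = (b - a) + (e - c) := by abel
  rw [this]
  exact h1.add h2

lemma Le_sum {ι : Type*} (s : Finset ι) (f g : ι → Matrix n n ℂ) (h : ∀ i ∈ s, Le (f i) (g i)) :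
    Le (∑ i ∈ s, f i) (∑ i ∈ s, g i) := by
  unfold Le at *
  rw [← Finset.sum_sub_distrib]
  exact Matrix.posSemidef_sum s h

lemma ofReal_nonneg' {c : ℝ} (hc : 0 ≤ c) : (0 : ℂ) ≤ (c : ℂ) := by
  exact_mod_cast hc

omit [Fintype n] in
lemma psd_smul {a : Matrix n n ℂ} (h : a.PosSemidef) {c : ℝ} (hc : 0 ≤ c) :
    ((c : ℂ) • a).PosSemidef := h.smul (ofReal_nonneg' hc)

lemma Le_smul {a b : Matrix n n ℂ} (h : Le a b) {c : ℝ} (hc : 0 ≤ c) :
    Le ((c : ℂ) • a) ((c : ℂ) • b) := by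
  unfold Le at *
  rw [← smul_sub]
  exact psd_smul h hc

lemma Le_zero {a : Matrix n n ℂ} : Le 0 a ↔ a.PosSemidef := by
  unfold Le
  rw [sub_zero]

lemma Le_smul_right {a : Matrix n n ℂ} (h : a.PosSemidef) {c c' : ℝ} (hc : c ≤ c') :
    Le ((c : ℂ) • a) ((c' : ℂ) • a) := by
  unfold Le
  rw [← sub_smul, ← Complex.ofReal_sub]
  exact psd_smul h (by linarith)

lemma Le_psd {a b : Matrix n n ℂ} (h : Le a b) (ha : a.PosSemidef) : b.PosSemidef :=
  Le_zero.1 (Le_trans (Le_zero.2 ha) h)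

lemma Le_conj {a b : Matrix n n ℂ} (h : Le a b) (c : Matrix n m ℂ) :
    Le (cᴴ * a * c) (cᴴ * b * c) := by
  unfold Le at *
  rw [← Matrix.sub_mul, ← Matrix.mul_sub]
  exact h.conjTranspose_mul_mul_same c

lemma Le_conj' {a b : Matrix n n ℂ} (h : Le a b) (c : Matrix m n ℂ) :
    Le (c * a * cᴴ) (c * b * cᴴ) := by
  unfold Le at *
  rw [← Matrix.sub_mul, ← Matrix.mul_sub]
  exact h.mul_mul_conjTranspose_same c

lemma Le_tr {a b : Matrix n n ℂ} (h : Le a b) : tr a ≤ tr b := by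
  have := tr_nonneg (show (b - a).PosSemidef from h)
  rw [tr_sub] at this
  linarith

lemma Le_tr_mul {a b c : Matrix n n ℂ} (h : Le a b) (hc : c.PosSemidef) :
    tr (a * c) ≤ tr (b * c) := by
  have := tr_mul_nonneg (show (b - a).PosSemidef from h) hc
  rw [Matrix.sub_mul, tr_sub] at this
  linarith

lemma Le_mul_tr {a b c : Matrix n n ℂ} (h : Le a b) (hc : c.PosSemidef) :
    tr (c * a) ≤ tr (c * b) := by
  rw [tr_mul_comm c a, tr_mul_comm c b]
  exact Le_tr_mul h hc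

/-- the order is antisymmetric -/
lemma Le_antisymm {a b : Matrix n n ℂ} (h1 : Le a b) (h2 : Le b a) : a = b := by
  have h3 := Le_tr h1
  have h4 := Le_tr h2
  have h5 : tr (b - a) = 0 := by rw [tr_sub]; linarith
  have h6 : Matrix.trace (b - a) = 0 := by
    rw [trace_eq_tr (show (b - a).PosSemidef from h1).1, h5]
    simp
  classical
  have h7 := (show (b - a).PosSemidef from h1).trace_eq_zero_iff.1 h6
  exact (sub_eq_zero.1 h7).symm

lemma psd_eq_zero {a : Matrix n n ℂ} (h : a.PosSemidef) (h0 : tr a = 0) : a = 0 := by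
  classical
  refine h.trace_eq_zero_iff.1 ?_
  rw [trace_eq_tr h.1, h0]
  simp

/-! ### Contractions -/

lemma contr_aux [DecidableEq n] {p : Matrix n n ℂ} (hp : pᴴ = p) (h : Le (p * p) p) : Le p 1 := by
  unfold Le at *
  have h1 : (1 - p : Matrix n n ℂ) = (1 - p)ᴴ * (1 - p) + (p - p * p) := by
    rw [Matrix.conjTranspose_sub, Matrix.conjTranspose_one, hp]
    noncomm_ring
  rw [h1]
  exact (Matrix.posSemidef_conjTranspose_mul_self _).add h

lemma contr_conj [DecidableEq n] [DecidableEq m] {a : Matrix m n ℂ} (h : Le (aᴴ * a) 1) :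
    Le (a * aᴴ) 1 := by
  refine contr_aux ?_ ?_
  · rw [Matrix.conjTranspose_mul, Matrix.conjTranspose_conjTranspose]
  · have := Le_conj' h a
    rw [Matrix.mul_one, ← Matrix.mul_assoc, Matrix.mul_assoc (a * aᴴ)] at this
    exact this

lemma hs_mul_le_of [DecidableEq n] {a : Matrix m n ℂ} {c : ℝ}
    (h : Le (aᴴ * a) ((c : ℂ) • 1)) (x : Matrix n l ℂ) : hs (a * x) ≤ c * hs x := by
  have h1 := Le_tr (Le_conj h x)
  rw [hs_eq_tr, hs_eq_tr, Matrix.conjTranspose_mul]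
  have e1 : xᴴ * aᴴ * (a * x) = xᴴ * (aᴴ * a) * x := by
    simp only [Matrix.mul_assoc]
  have e2 : xᴴ * ((c : ℂ) • (1 : Matrix n n ℂ)) * x = (c : ℂ) • (xᴴ * x) := by
    rw [Matrix.mul_smul, Matrix.smul_mul, Matrix.mul_one]
  rw [e1]
  rw [e2, tr_smul] at h1
  exact h1

lemma hs_mul_le [DecidableEq n] {a : Matrix m n ℂ} (h : Le (aᴴ * a) 1) (x : Matrix n l ℂ) :
    hs (a * x) ≤ hs x := by
  have h1 := hs_mul_le_of (c := 1) (a := a) (by simpa using h) x
  linarith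

/-- right multiplication; `hs (x * a) ≤ hs x` if `a a* ≤ 1` -/
lemma hs_mul_le_right' [DecidableEq n] {a : Matrix n m ℂ} (h : Le (a * aᴴ) 1) (x : Matrix l n ℂ) :
    hs (x * a) ≤ hs x := by
  rw [← hs_conjTranspose, ← hs_conjTranspose x, Matrix.conjTranspose_mul]
  exact hs_mul_le (by rwa [Matrix.conjTranspose_conjTranspose]) _

lemma hs_mul_le_right [DecidableEq n] [DecidableEq m] {a : Matrix n m ℂ} (h : Le (aᴴ * a) 1)
    (x : Matrix l n ℂ) : hs (x * a) ≤ hs x := hs_mul_le_right' (contr_conj h) x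

lemma hs_mul_le_right_of [DecidableEq n] {a : Matrix n m ℂ} {c : ℝ}
    (h : Le (a * aᴴ) ((c : ℂ) • 1)) (x : Matrix l n ℂ) : hs (x * a) ≤ c * hs x := by
  rw [← hs_conjTranspose, ← hs_conjTranspose x, Matrix.conjTranspose_mul]
  exact hs_mul_le_of (by rwa [Matrix.conjTranspose_conjTranspose]) _

/-! ### Unitaries and isometries -/

lemma hs_isom_mul [DecidableEq n] {u : Matrix m n ℂ} (hu : uᴴ * u = 1) (x : Matrix n l ℂ) :
    hs (u * x) = hs x := by
  rw [hs_eq, hs_eq, Matrix.conjTranspose_mul, Matrix.mul_assoc, ← Matrix.mul_assoc uᴴ, hu,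
    Matrix.one_mul]

lemma hs_mul_coisom [DecidableEq n] {u : Matrix n m ℂ} (hu : u * uᴴ = 1) (x : Matrix l n ℂ) :
    hs (x * u) = hs x := by
  rw [hs_eq', hs_eq', Matrix.conjTranspose_mul, Matrix.mul_assoc, ← Matrix.mul_assoc u, hu,
    Matrix.one_mul]

lemma unit_symm [DecidableEq n] {u : Matrix n n ℂ} (hu : uᴴ * u = 1) : u * uᴴ = 1 :=
  mul_eq_one_comm.1 hu

lemma unit_conj [DecidableEq n] {u : Matrix n n ℂ} (hu : uᴴ * u = 1) : (uᴴ)ᴴ * uᴴ = 1 := by
  rw [Matrix.conjTranspose_conjTranspose]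
  exact unit_symm hu

lemma hs_unit_mul [DecidableEq n] {u : Matrix n n ℂ} (hu : uᴴ * u = 1) (x : Matrix n l ℂ) :
    hs (u * x) = hs x := hs_isom_mul hu x

lemma hs_mul_unit [DecidableEq n] {u : Matrix n n ℂ} (hu : uᴴ * u = 1) (x : Matrix l n ℂ) :
    hs (x * u) = hs x := hs_mul_coisom (unit_symm hu) x

/-- `|u x - x u| = |x - u* x u|` -/
lemma hs_comm_eq [DecidableEq n] {u : Matrix n n ℂ} (hu : uᴴ * u = 1) (x : Matrix n n ℂ) :
    hs (u * x - x * u) = hs (x - uᴴ * x * u) := by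
  have h : uᴴ * (u * x - x * u) = x - uᴴ * x * u := by
    rw [Matrix.mul_sub, ← Matrix.mul_assoc, hu, Matrix.one_mul, ← Matrix.mul_assoc]
  rw [← h, hs_unit_mul (unit_conj hu)]

lemma hs_comm_eq' [DecidableEq n] {u : Matrix n n ℂ} (hu : uᴴ * u = 1) (x : Matrix n n ℂ) :
    hs (u * x - x * u) = hs (x - u * x * uᴴ) := by
  have h : (u * x - x * u) * uᴴ = u * x * uᴴ - x := by
    rw [Matrix.sub_mul, Matrix.mul_assoc x, unit_symm hu, Matrix.mul_one]
  rw [hs_sub_comm x, ← h, hs_mul_unit (unit_conj hu)]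

/-- commutator with the adjoint -/
lemma hs_comm_adj [DecidableEq n] {u : Matrix n n ℂ} (hu : uᴴ * u = 1) (x : Matrix n n ℂ) :
    hs (uᴴ * x - x * uᴴ) = hs (u * x - x * u) := by
  rw [hs_comm_eq hu, hs_comm_eq' (unit_conj hu), Matrix.conjTranspose_conjTranspose]

lemma hs_comm_conj [DecidableEq n] {u : Matrix n n ℂ} (hu : uᴴ * u = 1) (x : Matrix n n ℂ) :
    hs (u * xᴴ - xᴴ * u) = hs (u * x - x * u) := by
  rw [← hs_comm_adj hu xᴴ, ← hs_conjTranspose, Matrix.conjTranspose_sub, Matrix.conjTranspose_mul,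
    Matrix.conjTranspose_mul, Matrix.conjTranspose_conjTranspose,
    Matrix.conjTranspose_conjTranspose, hs_sub_comm]

/-- expansion of the commutator for a hermitian matrix -/
lemma hs_comm_herm [DecidableEq n] {u : Matrix n n ℂ} (hu : uᴴ * u = 1) {x : Matrix n n ℂ}
    (hx : xᴴ = x) : hs (u * x - x * u) = 2 * hs x - 2 * tr (x * (u * x * uᴴ)) := by
  rw [hs_comm_eq' hu, hs_eq_tr, Matrix.conjTranspose_sub, Matrix.conjTranspose_mul,
    Matrix.conjTranspose_mul, Matrix.conjTranspose_conjTranspose, hx, Matrix.sub_mul,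
    Matrix.mul_sub, Matrix.mul_sub, tr_sub, tr_sub, tr_sub]
  have h1 : tr (u * (x * uᴴ) * (u * x * uᴴ)) = hs x := by
    have e : u * (x * uᴴ) * (u * x * uᴴ) = u * (x * x * uᴴ) := by
      calc u * (x * uᴴ) * (u * x * uᴴ) = u * x * (uᴴ * u) * x * uᴴ := by
            simp only [Matrix.mul_assoc]
        _ = u * (x * x * uᴴ) := by
            rw [hu, Matrix.mul_one]; simp only [Matrix.mul_assoc]
    rw [e, tr_mul_comm, Matrix.mul_assoc, hu, Matrix.mul_one, hs_eq_tr, hx]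
  have h2 : tr (u * (x * uᴴ) * x) = tr (x * (u * x * uᴴ)) := by
    rw [tr_mul_comm, Matrix.mul_assoc u]
  have h3 : tr (x * x) = hs x := by rw [hs_eq_tr, hx]
  rw [h1, h2, h3]
  ring

/-- lower bound through the positive part: commutator of a projection -/
lemma hs_comm_pr [DecidableEq n] {u : Matrix n n ℂ} (hu : uᴴ * u = 1) {p : Matrix n n ℂ}
    (hp : IsPr p) : hs (u * p - p * u) = 2 * tr p - 2 * tr (p * (u * p * uᴴ)) := by
  rw [hs_comm_herm hu hp.1, hs_eq_tr, hp.1, hp.2]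

/-! ### Projections -/

lemma pr_psd {p : Matrix n n ℂ} (hp : IsPr p) : p.PosSemidef := by
  have h := Matrix.posSemidef_conjTranspose_mul_self p
  rwa [hp.1, hp.2] at h

lemma pr_zero : IsPr (0 : Matrix n n ℂ) := ⟨by simp, by simp⟩

lemma pr_one [DecidableEq n] : IsPr (1 : Matrix n n ℂ) := ⟨by simp, by simp⟩

lemma pr_compl [DecidableEq n] {p : Matrix n n ℂ} (hp : IsPr p) : IsPr (1 - p) := by
  refine ⟨by rw [Matrix.conjTranspose_sub, Matrix.conjTranspose_one, hp.1], ?_⟩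
  have h := hp.2
  calc (1 - p) * (1 - p) = 1 - p - p + p * p := by noncomm_ring
    _ = 1 - p := by rw [h]; abel

lemma pr_le_one [DecidableEq n] {p : Matrix n n ℂ} (hp : IsPr p) : Le p 1 :=
  pr_psd (pr_compl hp)

lemma pr_sq_le_one [DecidableEq n] {p : Matrix n n ℂ} (hp : IsPr p) : Le (pᴴ * p) 1 := by
  rw [hp.1, hp.2]
  exact pr_le_one hp

lemma pr_tr_eq_hs {p : Matrix n n ℂ} (hp : IsPr p) : tr p = hs p := by
  rw [hs_eq_tr, hp.1, hp.2]

lemma pr_tr_nonneg {p : Matrix n n ℂ} (hp : IsPr p) : 0 ≤ tr p := tr_nonneg (pr_psd hp)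

lemma pr_tr_rank {p : Matrix n n ℂ} (hp : IsPr p) : tr p = (p.rank : ℝ) := by
  classical
  have h1 : IsIdempotentElem (Matrix.toLin' p) := by
    unfold IsIdempotentElem
    rw [Module.End.mul_eq_comp, ← Matrix.toLin'_mul, hp.2]
  have h2 := (LinearMap.IsIdempotentElem.isProj_range _ h1).trace
  rw [Matrix.trace_toLin'_eq] at h2
  unfold tr
  rw [h2, Complex.natCast_re]
  rfl

lemma pr_tr_one_le {p : Matrix n n ℂ} (hp : IsPr p) (h : 0 < tr p) : 1 ≤ tr p := by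
  rw [pr_tr_rank hp] at h ⊢
  have h1 : 0 < p.rank := by exact_mod_cast h
  exact_mod_cast h1

lemma pr_eq_zero_iff {p : Matrix n n ℂ} (hp : IsPr p) : p = 0 ↔ tr p = 0 := by
  constructor
  · rintro rfl
    exact tr_zero
  · exact fun h => psd_eq_zero (pr_psd hp) h

lemma pr_le {p q : Matrix n n ℂ} (hp : IsPr p) (hq : IsPr q) (h : q * p = p) : Le p q := by
  classical
  have h2 : p * q = p := by
    have := congrArg Matrix.conjTranspose h
    rwa [Matrix.conjTranspose_mul, hp.1, hq.1] at this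
  have h3 := Le_conj' (pr_le_one hp) q
  rw [hq.1, Matrix.mul_one, h, h2, hq.2] at h3
  exact h3

lemma pr_mul_symm {p q : Matrix n n ℂ} (hp : IsPr p) (hq : IsPr q) (h : q * p = p) :
    p * q = p := by
  have := congrArg Matrix.conjTranspose h
  rwa [Matrix.conjTranspose_mul, hp.1, hq.1] at this

lemma pr_mul_zero_symm {p q : Matrix n n ℂ} (hp : IsPr p) (hq : IsPr q) (h : p * q = 0) :
    q * p = 0 := by
  have := congrArg Matrix.conjTranspose h
  rwa [Matrix.conjTranspose_mul, hp.1, hq.1, Matrix.conjTranspose_zero] at this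

lemma pr_sub {p q : Matrix n n ℂ} (hp : IsPr p) (hq : IsPr q) (h : q * p = p) :
    IsPr (q - p) := by
  have h2 := pr_mul_symm hp hq h
  refine ⟨by rw [Matrix.conjTranspose_sub, hp.1, hq.1], ?_⟩
  calc (q - p) * (q - p) = q * q - q * p - p * q + p * p := by noncomm_ring
    _ = q - p := by rw [h, h2, hp.2, hq.2]; abel

lemma pr_add {p q : Matrix n n ℂ} (hp : IsPr p) (hq : IsPr q) (h : p * q = 0) :
    IsPr (p + q) := by
  have h2 := pr_mul_zero_symm hp hq h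
  refine ⟨by rw [Matrix.conjTranspose_add, hp.1, hq.1], ?_⟩
  calc (p + q) * (p + q) = p * p + p * q + q * p + q * q := by noncomm_ring
    _ = p + q := by rw [h, h2, hp.2, hq.2]; abel

lemma pr_sub_mul {p q : Matrix n n ℂ} (hp : IsPr p) (h : q * p = p) : (q - p) * p = 0 := by
  rw [Matrix.sub_mul, h, hp.2, sub_self]

lemma pr_mul_sub {p q : Matrix n n ℂ} (hp : IsPr p) (hq : IsPr q) (h : q * p = p) :
    p * (q - p) = 0 := by
  rw [Matrix.mul_sub, pr_mul_symm hp hq h, hp.2, sub_self]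

/-- a projection dominated by a projection is a subprojection -/
lemma pr_of_le {p q : Matrix n n ℂ} (hp : IsPr p) (hq : IsPr q) (h : Le p q) : q * p = p := by
  classical
  have h1 := Le_conj h (1 - q)
  have h2 : ((1 - q)ᴴ * q * (1 - q) : Matrix n n ℂ) = 0 := by
    rw [(pr_compl hq).1, Matrix.sub_mul, Matrix.one_mul, hq.2, sub_self, Matrix.zero_mul]
  have h3 : ((1 - q)ᴴ * p * (1 - q) : Matrix n n ℂ) = (p * (1 - q))ᴴ * (p * (1 - q)) := by
    rw [Matrix.conjTranspose_mul, hp.1, Matrix.mul_assoc ((1 - q)ᴴ) p, Matrix.mul_assoc ((1 - q)ᴴ) p,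
      ← Matrix.mul_assoc p p, hp.2]
  rw [h2, h3] at h1
  have h4 := Le_tr h1
  rw [← hs_eq_tr, tr_zero] at h4
  have h5 : p * (1 - q) = 0 := hs_eq_zero_iff.1 (le_antisymm h4 (hs_nonneg _))
  rw [Matrix.mul_sub, Matrix.mul_one, sub_eq_zero] at h5
  have h6 := congrArg Matrix.conjTranspose h5
  rw [Matrix.conjTranspose_mul, hp.1, hq.1] at h6
  exact h6.symm

lemma pr_hs_sub {p q : Matrix n n ℂ} (hp : IsPr p) (hq : IsPr q) :
    hs (p - q) = tr p + tr q - 2 * tr (p * q) := by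
  rw [hs_eq_tr, Matrix.conjTranspose_sub, hp.1, hq.1]
  have : (p - q) * (p - q) = p * p - p * q - q * p + q * q := by noncomm_ring
  rw [this, hp.2, hq.2, tr_add, tr_sub, tr_sub, tr_mul_comm q p]
  ring

lemma tr_mul_le_of_le_one [DecidableEq n] {x p : Matrix n n ℂ} (hx : Le x 1) (hp : p.PosSemidef) :
    tr (x * p) ≤ tr p := by
  have := Le_tr_mul hx hp
  rwa [Matrix.one_mul] at this

lemma pr_abs_tr_sub {p q : Matrix n n ℂ} (hp : IsPr p) (hq : IsPr q) :
    |tr p - tr q| ≤ hs (p - q) := by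
  classical
  rw [pr_hs_sub hp hq]
  have h1 := tr_mul_le_of_le_one (pr_le_one hp) (pr_psd hq)
  have h2 := tr_mul_le_of_le_one (pr_le_one hq) (pr_psd hp)
  rw [tr_mul_comm] at h2
  rw [abs_le]
  constructor <;> linarith

lemma tr_sq_mul_pr {x s p : Matrix n n ℂ} (hx : x = sᴴ * s) (hp : IsPr p) :
    tr (x * p) = hs (s * p) := by
  rw [hs_eq_tr, Matrix.conjTranspose_mul, hp.1, hx]
  have : p * sᴴ * (s * p) = p * (sᴴ * s * p) := by simp only [Matrix.mul_assoc]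
  rw [this, tr_mul_comm p, Matrix.mul_assoc _ p p, hp.2]

lemma tr_sq_mul_pr' {x s p : Matrix n n ℂ} (hs' : sᴴ = s) (hx : x = s * s) (hp : IsPr p) :
    tr (x * p) = hs (s * p) := tr_sq_mul_pr (by rw [hs', hx]) hp

lemma sq_le_self [DecidableEq n] {x : Matrix n n ℂ} (hx : x.PosSemidef) (h : Le x 1) :
    Le (x * x) x := by
  obtain ⟨s, hs1, hs2⟩ := exists_sqrt hx
  have h1 := Le_conj h s
  rw [hs1.1.eq, Matrix.mul_one, ← hs2] at h1
  have h2 : s * x * s = x * x := by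
    rw [hs2]
    simp only [Matrix.mul_assoc]
  rwa [h2] at h1

lemma sq_le_one [DecidableEq n] {x : Matrix n n ℂ} (hx : x.PosSemidef) (h : Le x 1) :
    Le (xᴴ * x) 1 := by
  rw [hx.1.eq]
  exact Le_trans (sq_le_self hx h) h

lemma hs_le_tr [DecidableEq n] {x : Matrix n n ℂ} (hx : x.PosSemidef) (h : Le x 1) :
    hs x ≤ tr x := by
  rw [hs_eq_tr, hx.1.eq]
  exact Le_tr (sq_le_self hx h)

/-- `|h f|^2 ≤ tr (h f)` for `0 ≤ h ≤ 1` -/
lemma hs_mul_pr_le [DecidableEq n] {h f : Matrix n n ℂ} (h0 : h.PosSemidef) (h1 : Le h 1)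
    (hf : IsPr f) : hs (h * f) ≤ tr (h * f) := by
  have e : hs (h * f) = tr (h * h * f) := by
    rw [tr_sq_mul_pr' h0.1.eq rfl hf]
  rw [e]
  exact Le_tr_mul (sq_le_self h0 h1) (pr_psd hf)

/-- replacing a projection by a nearby projection -/
lemma tr_mul_pr_le [DecidableEq n] {h f f' : Matrix n n ℂ} (h0 : h.PosSemidef) (h1 : Le h 1)
    (hf : IsPr f) (hf' : IsPr f') :
    tr (h * f') ≤ (√(tr (h * f)) + √(hs (f' - f))) ^ 2 := by
  obtain ⟨s, rfl⟩ := exists_fac h0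
  rw [tr_sq_mul_pr rfl hf, tr_sq_mul_pr rfl hf']
  have e : s * f' = s * f + s * (f' - f) := by
    rw [Matrix.mul_sub]
    abel
  have h2 := sqrt_hs_add_le (s * f) (s * (f' - f))
  rw [← e] at h2
  have h3 : √(hs (s * (f' - f))) ≤ √(hs (f' - f)) := Real.sqrt_le_sqrt (hs_mul_le h1 _)
  have h4 : √(hs (s * f')) ≤ √(hs (s * f)) + √(hs (f' - f)) := by linarith
  calc hs (s * f') = √(hs (s * f')) ^ 2 := (Real.sq_sqrt (hs_nonneg _)).symm
    _ ≤ _ := pow_le_pow_left₀ (Real.sqrt_nonneg _) h4 2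

/-- the square-root version of the previous lemma -/
lemma sqrt_tr_mul_pr_le [DecidableEq n] {h f f' : Matrix n n ℂ} (h0 : h.PosSemidef)
    (h1 : Le h 1) (hf : IsPr f) (hf' : IsPr f') :
    √(tr (h * f')) ≤ √(tr (h * f)) + √(hs (f' - f)) := by
  rw [← Real.sqrt_sq (show 0 ≤ √(tr (h * f)) + √(hs (f' - f)) by positivity)]
  exact Real.sqrt_le_sqrt (tr_mul_pr_le h0 h1 hf hf')

lemma tr_mul_pr_nonneg {h f : Matrix n n ℂ} (h0 : h.PosSemidef) (hf : IsPr f) :
    0 ≤ tr (h * f) := tr_mul_nonneg h0 (pr_psd hf)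

/-- `|x p|^2 = tr (x* x p)` and the like for the pinching: Pythagoras -/
lemma hs_pyth_right [DecidableEq n] {p : Matrix n n ℂ} (hp : IsPr p) (x : Matrix m n ℂ) :
    hs x = hs (x * p) + hs (x * (1 - p)) := by
  rw [hs_eq_tr' (x * p), hs_eq_tr' (x * (1 - p)), ← tr_add, hs_eq_tr' x]
  congr 1
  rw [Matrix.conjTranspose_mul, Matrix.conjTranspose_mul, (pr_compl hp).1, hp.1,
    ← Matrix.mul_assoc (x * p), Matrix.mul_assoc x p p, hp.2, ← Matrix.mul_assoc (x * (1 - p)),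
    Matrix.mul_assoc x (1 - p) (1 - p), (pr_compl hp).2, ← Matrix.add_mul, ← Matrix.mul_add]
  congr 2
  rw [add_sub_cancel, Matrix.mul_one]

lemma hs_pyth_left [DecidableEq m] {p : Matrix m m ℂ} (hp : IsPr p) (x : Matrix m n ℂ) :
    hs x = hs (p * x) + hs ((1 - p) * x) := by
  have h := hs_pyth_right hp xᴴ
  rw [hs_conjTranspose, ← hs_conjTranspose (xᴴ * p), ← hs_conjTranspose (xᴴ * (1 - p)),
    Matrix.conjTranspose_mul, Matrix.conjTranspose_mul, (pr_compl hp).1, hp.1,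
    Matrix.conjTranspose_conjTranspose] at h
  exact h

lemma hs_mul_pr_le_self {p : Matrix n n ℂ} (hp : IsPr p) (x : Matrix m n ℂ) :
    hs (x * p) ≤ hs x := by
  classical
  have := hs_pyth_right hp x
  linarith [hs_nonneg (x * (1 - p))]

lemma hs_pr_mul_le_self {p : Matrix m m ℂ} (hp : IsPr p) (x : Matrix m n ℂ) :
    hs (p * x) ≤ hs x := by
  classical
  have := hs_pyth_left hp x
  linarith [hs_nonneg ((1 - p) * x)]

/-- `|[u, p]|^2 = 2 |(1-p) u p|^2` -/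
lemma hs_comm_pr' [DecidableEq n] {u : Matrix n n ℂ} (hu : uᴴ * u = 1) {p : Matrix n n ℂ}
    (hp : IsPr p) : hs (u * p - p * u) = 2 * hs ((1 - p) * u * p) := by
  have h1 := hs_pyth_left hp (u * p)
  have h2 : hs (u * p) = tr p := by rw [hs_unit_mul hu, pr_tr_eq_hs hp]
  have h3 : hs (p * (u * p)) = tr (p * (u * p * uᴴ)) := by
    rw [hs_eq_tr', Matrix.conjTranspose_mul, Matrix.conjTranspose_mul, hp.1]
    have e : p * (u * p) * (p * uᴴ * p) = p * (u * (p * p) * uᴴ) * p := by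
      simp only [Matrix.mul_assoc]
    rw [e, hp.2, tr_mul_comm, ← Matrix.mul_assoc, hp.2]
  rw [hs_comm_pr hu hp, Matrix.mul_assoc (1 - p)]
  linarith

/-! ### The energy -/

section Energy

variable {d k : ℕ}

lemma en_nonneg (u : Fin k → Mt d) (x : Mt d) : 0 ≤ en u x :=
  Finset.sum_nonneg fun _ _ => hs_nonneg _

lemma en_zero (u : Fin k → Mt d) : en u 0 = 0 := by
  simp [en, hs_zero]

lemma en_one (u : Fin k → Mt d) : en u 1 = 0 := by
  simp [en, hs_zero]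

lemma en_neg (u : Fin k → Mt d) (x : Mt d) : en u (-x) = en u x := by
  unfold en
  refine Finset.sum_congr rfl fun s _ => ?_
  rw [← hs_neg]
  congr 1
  rw [Matrix.mul_neg, Matrix.neg_mul]
  abel

lemma en_smul (u : Fin k → Mt d) (c : ℂ) (x : Mt d) : en u (c • x) = ‖c‖ ^ 2 * en u x := by
  unfold en
  rw [Finset.mul_sum]
  refine Finset.sum_congr rfl fun s _ => ?_
  rw [Matrix.mul_smul, Matrix.smul_mul, ← smul_sub, hs_smul]

lemma en_smul_real (u : Fin k → Mt d) (c : ℝ) (x : Mt d) :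
    en u ((c : ℂ) • x) = c ^ 2 * en u x := by
  rw [en_smul, Complex.norm_real, Real.norm_eq_abs, sq_abs]

lemma comm_add (u x y : Mt d) :
    u * (x + y) - (x + y) * u = (u * x - x * u) + (u * y - y * u) := by noncomm_ring

lemma comm_sub (u x y : Mt d) :
    u * (x - y) - (x - y) * u = (u * x - x * u) - (u * y - y * u) := by noncomm_ring

lemma en_add_le (u : Fin k → Mt d) (x y : Mt d) : en u (x + y) ≤ 2 * en u x + 2 * en u y := by
  unfold en
  rw [Finset.mul_sum, Finset.mul_sum, ← Finset.sum_add_distrib]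
  refine Finset.sum_le_sum fun s _ => ?_
  rw [comm_add]
  exact hs_add_le _ _

lemma en_sub_le (u : Fin k → Mt d) (x y : Mt d) : en u (x - y) ≤ 2 * en u x + 2 * en u y := by
  have h := en_add_le u x (-y)
  rwa [← sub_eq_add_neg, en_neg] at h

/-- the commutators as a vector -/
def cv (u : Fin k → Mt d) (x : Mt d) : EuclideanSpace ℂ (Fin k × (Fin d × Fin d)) :=
  WithLp.toLp 2 (fun p => (u p.1 * x - x * u p.1) p.2.1 p.2.2)

lemma cv_add (u : Fin k → Mt d) (x y : Mt d) : cv u (x + y) = cv u x + cv u y := by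
  ext p
  have := congrFun (congrFun (comm_add (u p.1) x y) p.2.1) p.2.2
  simpa [cv] using this

lemma cv_sub (u : Fin k → Mt d) (x y : Mt d) : cv u (x - y) = cv u x - cv u y := by
  ext p
  have := congrFun (congrFun (comm_sub (u p.1) x y) p.2.1) p.2.2
  simpa [cv] using this

lemma en_eq_norm (u : Fin k → Mt d) (x : Mt d) : en u x = ‖cv u x‖ ^ 2 := by
  rw [EuclideanSpace.norm_sq_eq, Fintype.sum_prod_type]
  refine Finset.sum_congr rfl fun s _ => ?_
  rw [Fintype.sum_prod_type]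
  rfl

lemma sqrt_en (u : Fin k → Mt d) (x : Mt d) : √(en u x) = ‖cv u x‖ := by
  rw [en_eq_norm, Real.sqrt_sq (norm_nonneg _)]

lemma sqrt_en_add_le (u : Fin k → Mt d) (x y : Mt d) :
    √(en u (x + y)) ≤ √(en u x) + √(en u y) := by
  rw [sqrt_en, sqrt_en, sqrt_en, cv_add]
  exact norm_add_le _ _

lemma sqrt_en_sub_le (u : Fin k → Mt d) (x y : Mt d) :
    √(en u (x - y)) ≤ √(en u x) + √(en u y) := by
  rw [sqrt_en, sqrt_en, sqrt_en, cv_sub]
  exact norm_sub_le _ _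

lemma sqrt_en_sum_le {ι : Type*} (u : Fin k → Mt d) (s : Finset ι) (f : ι → Mt d) :
    √(en u (∑ i ∈ s, f i)) ≤ ∑ i ∈ s, √(en u (f i)) := by
  classical
  induction s using Finset.induction_on with
  | empty => simp [en_zero]
  | insert a s ha ih =>
    rw [Finset.sum_insert ha, Finset.sum_insert ha]
    exact (sqrt_en_add_le _ _ _).trans (by linarith)

lemma en_le (u : Fin k → Mt d) (hu : ∀ s, (u s)ᴴ * u s = 1) (x : Mt d) :
    en u x ≤ 4 * k * hs x := by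
  unfold en
  have h : ∀ s ∈ (Finset.univ : Finset (Fin k)), hs (u s * x - x * u s) ≤ 4 * hs x := by
    intro s _
    have h1 := hs_sub_le (u s * x) (x * u s)
    rw [hs_unit_mul (hu s), hs_mul_unit (hu s)] at h1
    linarith
  refine (Finset.sum_le_sum h).trans (le_of_eq ?_)
  rw [Finset.sum_const, Finset.card_univ, Fintype.card_fin, nsmul_eq_mul]
  ring

lemma sqrt_en_le (u : Fin k → Mt d) (hu : ∀ s, (u s)ᴴ * u s = 1) (x : Mt d) :
    √(en u x) ≤ 2 * √k * √(hs x) := by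
  have h := Real.sqrt_le_sqrt (en_le u hu x)
  refine h.trans (le_of_eq ?_)
  have h4 : (4 : ℝ) = 2 ^ 2 := by norm_num
  rw [mul_assoc, h4, Real.sqrt_mul (by norm_num), Real.sqrt_sq (by norm_num),
    Real.sqrt_mul (by positivity)]
  ring

lemma en_conj (u : Fin k → Mt d) (hu : ∀ s, (u s)ᴴ * u s = 1) (x : Mt d) :
    en u xᴴ = en u x :=
  Finset.sum_congr rfl fun s _ => hs_comm_conj (hu s) x

lemma en_adj (u : Fin k → Mt d) (hu : ∀ s, (u s)ᴴ * u s = 1) (x : Mt d) :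
    ∑ s, hs ((u s)ᴴ * x - x * (u s)ᴴ) = en u x :=
  Finset.sum_congr rfl fun s _ => hs_comm_adj (hu s) x

lemma en_compl (u : Fin k → Mt d) (x : Mt d) : en u (1 - x) = en u x := by
  unfold en
  refine Finset.sum_congr rfl fun s _ => ?_
  rw [← hs_neg]
  congr 1
  noncomm_ring

lemma en_pr (u : Fin k → Mt d) (hu : ∀ s, (u s)ᴴ * u s = 1) {p : Mt d} (hp : IsPr p) :
    en u p = ∑ s, (2 * tr p - 2 * tr (p * (u s * p * (u s)ᴴ))) :=
  Finset.sum_congr rfl fun s _ => hs_comm_pr (hu s) hp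

lemma en_pr' (u : Fin k → Mt d) (hu : ∀ s, (u s)ᴴ * u s = 1) {p : Mt d} (hp : IsPr p) :
    en u p = 2 * ∑ s, hs ((1 - p) * u s * p) := by
  rw [Finset.mul_sum]
  exact Finset.sum_congr rfl fun s _ => hs_comm_pr' (hu s) hp

lemma en_pr_le (u : Fin k → Mt d) (hu : ∀ s, (u s)ᴴ * u s = 1) {p : Mt d} (hp : IsPr p) :
    en u p ≤ 2 * k * tr p := by
  rw [en_pr u hu hp]
  have h : ∀ s ∈ (Finset.univ : Finset (Fin k)),
      (2 * tr p - 2 * tr (p * (u s * p * (u s)ᴴ))) ≤ 2 * tr p := by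
    intro s _
    have := tr_mul_nonneg (pr_psd hp) ((pr_psd hp).mul_mul_conjTranspose_same (u s))
    linarith
  refine (Finset.sum_le_sum h).trans (le_of_eq ?_)
  rw [Finset.sum_const, Finset.card_univ, Fintype.card_fin, nsmul_eq_mul]
  ring

/-- subadditivity of the energy for orthogonal projections -/
lemma en_add_orth (u : Fin k → Mt d) (hu : ∀ s, (u s)ᴴ * u s = 1) {z w : Mt d} (hz : IsPr z)
    (hw : IsPr w) (h : z * w = 0) : en u (z + w) ≤ en u z + en u w := by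
  rw [en_pr u hu (pr_add hz hw h), en_pr u hu hz, en_pr u hu hw, ← Finset.sum_add_distrib]
  refine Finset.sum_le_sum fun s _ => ?_
  have h1 := tr_mul_nonneg (pr_psd hz) ((pr_psd hw).mul_mul_conjTranspose_same (u s))
  have h2 := tr_mul_nonneg (pr_psd hw) ((pr_psd hz).mul_mul_conjTranspose_same (u s))
  have e : (z + w) * (u s * (z + w) * (u s)ᴴ) = z * (u s * z * (u s)ᴴ) + z * (u s * w * (u s)ᴴ)
      + w * (u s * z * (u s)ᴴ) + w * (u s * w * (u s)ᴴ) := by noncomm_ring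
  rw [e, tr_add, tr_add, tr_add, tr_add]
  linarith

/-- the energy of a difference of comparable projections -/
lemma en_sub_pr (u : Fin k → Mt d) (hu : ∀ s, (u s)ᴴ * u s = 1) {a b : Mt d} (ha : IsPr a)
    (hb : IsPr b) (h : a * b = b) : en u (a - b) ≤ en u a + en u b := by
  have e : (1 - (a - b) : Mt d) = (1 - a) + b := by abel
  rw [← en_compl u (a - b), e, ← en_compl u a]
  refine en_add_orth u hu (pr_compl ha) hb ?_
  rw [Matrix.sub_mul, Matrix.one_mul, h, sub_self]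

end Energy

/-! ### The resolvent -/

section Resolvent

variable {d : ℕ}

lemma one_add_posDef {lam : ℝ} (hl : 0 ≤ lam) {Q : Mt d} (hQ : Q.PosSemidef) :
    (1 + (lam : ℂ) • Q).PosDef := Matrix.PosDef.one.add_posSemidef (psd_smul hQ hl)

lemma one_add_isUnit {lam : ℝ} (hl : 0 ≤ lam) {Q : Mt d} (hQ : Q.PosSemidef) :
    IsUnit (1 + (lam : ℂ) • Q).det :=
  (Matrix.isUnit_iff_isUnit_det _).1 (one_add_posDef hl hQ).isUnit

lemma gg_mul {lam : ℝ} (hl : 0 ≤ lam) {Q : Mt d} (hQ : Q.PosSemidef) :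
    gg lam Q * (1 + (lam : ℂ) • Q) = 1 := Matrix.nonsing_inv_mul _ (one_add_isUnit hl hQ)

lemma mul_gg {lam : ℝ} (hl : 0 ≤ lam) {Q : Mt d} (hQ : Q.PosSemidef) :
    (1 + (lam : ℂ) • Q) * gg lam Q = 1 := Matrix.mul_nonsing_inv _ (one_add_isUnit hl hQ)

lemma gg_posDef {lam : ℝ} (hl : 0 ≤ lam) {Q : Mt d} (hQ : Q.PosSemidef) : (gg lam Q).PosDef :=
  (one_add_posDef hl hQ).inv

lemma gg_psd {lam : ℝ} (hl : 0 ≤ lam) {Q : Mt d} (hQ : Q.PosSemidef) : (gg lam Q).PosSemidef :=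
  (gg_posDef hl hQ).posSemidef

lemma gg_herm {lam : ℝ} (hl : 0 ≤ lam) {Q : Mt d} (hQ : Q.PosSemidef) :
    (gg lam Q)ᴴ = gg lam Q := (gg_psd hl hQ).1

/-- everything that commutes with `Q` commutes with the resolvent -/
lemma gg_comm_of {lam : ℝ} (hl : 0 ≤ lam) {Q : Mt d} (hQ : Q.PosSemidef) {x : Mt d}
    (hx : x * Q = Q * x) : x * gg lam Q = gg lam Q * x := by
  have h1 : x * (1 + (lam : ℂ) • Q) = (1 + (lam : ℂ) • Q) * x := by
    rw [Matrix.mul_add, Matrix.add_mul, Matrix.mul_smul, Matrix.smul_mul, hx, Matrix.mul_one,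
      Matrix.one_mul]
  calc x * gg lam Q = gg lam Q * (1 + (lam : ℂ) • Q) * x * gg lam Q := by
        rw [gg_mul hl hQ, Matrix.one_mul]
    _ = gg lam Q * (x * (1 + (lam : ℂ) • Q)) * gg lam Q := by
        rw [h1, Matrix.mul_assoc (gg lam Q)]
    _ = gg lam Q * x := by
        rw [Matrix.mul_assoc, Matrix.mul_assoc, mul_gg hl hQ, Matrix.mul_one]

lemma gg_comm {lam : ℝ} (hl : 0 ≤ lam) {Q : Mt d} (hQ : Q.PosSemidef) :
    Q * gg lam Q = gg lam Q * Q := gg_comm_of hl hQ rfl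

/-- `h = lam Q g` -/
lemma hh_eq {lam : ℝ} (hl : 0 ≤ lam) {Q : Mt d} (hQ : Q.PosSemidef) :
    hh lam Q = (lam : ℂ) • (Q * gg lam Q) := by
  have h := mul_gg hl hQ
  rw [Matrix.add_mul, Matrix.one_mul, Matrix.smul_mul] at h
  unfold hh
  rw [sub_eq_iff_eq_add, ← h]
  abel

lemma hh_eq' {lam : ℝ} (hl : 0 ≤ lam) {Q : Mt d} (hQ : Q.PosSemidef) :
    hh lam Q = (lam : ℂ) • (gg lam Q * Q) := by
  rw [hh_eq hl hQ, gg_comm hl hQ]

lemma gg_add_hh (lam : ℝ) (Q : Mt d) : gg lam Q + hh lam Q = 1 := by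
  unfold hh
  abel

lemma gg_hh_comm (lam : ℝ) (Q : Mt d) : gg lam Q * hh lam Q = hh lam Q * gg lam Q := by
  unfold hh
  noncomm_ring

lemma hh_comm {lam : ℝ} (hl : 0 ≤ lam) {Q : Mt d} (hQ : Q.PosSemidef) :
    Q * hh lam Q = hh lam Q * Q := by
  unfold hh
  rw [Matrix.mul_sub, Matrix.sub_mul, gg_comm hl hQ, Matrix.mul_one, Matrix.one_mul]

lemma hh_psd {lam : ℝ} (hl : 0 ≤ lam) {Q : Mt d} (hQ : Q.PosSemidef) :
    (hh lam Q).PosSemidef := by
  have h1 : hh lam Q = (lam : ℂ) • ((gg lam Q)ᴴ * Q * gg lam Q) +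
      ((lam ^ 2 : ℝ) : ℂ) • ((Q * gg lam Q)ᴴ * (Q * gg lam Q)) := by
    rw [gg_herm hl hQ, Matrix.conjTranspose_mul, gg_herm hl hQ, hQ.1.eq]
    have e : hh lam Q = hh lam Q * ((1 + (lam : ℂ) • Q) * gg lam Q) := by
      rw [mul_gg hl hQ, Matrix.mul_one]
    rw [e, hh_eq' hl hQ, Matrix.add_mul, Matrix.one_mul, Matrix.mul_add, Matrix.smul_mul,
      Matrix.smul_mul, Matrix.smul_mul, Matrix.mul_smul, smul_smul, ← Complex.ofReal_mul, ← sq]
  rw [h1]
  exact (psd_smul (hQ.conjTranspose_mul_mul_same _) hl).add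
    (psd_smul (Matrix.posSemidef_conjTranspose_mul_self _) (sq_nonneg lam))

lemma gg_le_one {lam : ℝ} (hl : 0 ≤ lam) {Q : Mt d} (hQ : Q.PosSemidef) : Le (gg lam Q) 1 :=
  hh_psd hl hQ

lemma hh_le_one {lam : ℝ} (hl : 0 ≤ lam) {Q : Mt d} (hQ : Q.PosSemidef) : Le (hh lam Q) 1 := by
  unfold Le hh
  rw [sub_sub_cancel]
  exact gg_psd hl hQ

lemma hh_herm {lam : ℝ} (hl : 0 ≤ lam) {Q : Mt d} (hQ : Q.PosSemidef) :
    (hh lam Q)ᴴ = hh lam Q := (hh_psd hl hQ).1

lemma gg_hh_psd {lam : ℝ} (hl : 0 ≤ lam) {Q : Mt d} (hQ : Q.PosSemidef) :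
    (gg lam Q * hh lam Q).PosSemidef := by
  have h := sq_le_self (gg_psd hl hQ) (gg_le_one hl hQ)
  unfold Le at h
  have e : gg lam Q * hh lam Q = gg lam Q - gg lam Q * gg lam Q := by
    unfold hh
    rw [Matrix.mul_sub, Matrix.mul_one]
  rwa [e]

/-- the commutator with a resolvent -/
lemma comm_gg {lam : ℝ} (hl : 0 ≤ lam) {Q : Mt d} (hQ : Q.PosSemidef) (v : Mt d) :
    v * gg lam Q - gg lam Q * v = -((lam : ℂ) • (gg lam Q * (v * Q - Q * v) * gg lam Q)) := by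
  have h1 := gg_mul hl hQ
  have h2 := mul_gg hl hQ
  have e : v * gg lam Q - gg lam Q * v = gg lam Q * ((1 + (lam : ℂ) • Q) * v -
      v * (1 + (lam : ℂ) • Q)) * gg lam Q := by
    rw [Matrix.mul_sub, Matrix.sub_mul, ← Matrix.mul_assoc, h1, Matrix.one_mul, ← Matrix.mul_assoc,
      Matrix.mul_assoc _ (1 + (lam : ℂ) • Q) (gg lam Q), h2, Matrix.mul_one]
  rw [e, Matrix.add_mul, Matrix.mul_add, Matrix.one_mul, Matrix.mul_one, Matrix.smul_mul,
    Matrix.mul_smul]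
  have e2 : v + (lam : ℂ) • (Q * v) - (v + (lam : ℂ) • (v * Q)) =
      -((lam : ℂ) • (v * Q - Q * v)) := by
    rw [smul_sub]
    abel
  rw [e2, Matrix.mul_neg, Matrix.neg_mul, Matrix.mul_smul, Matrix.smul_mul]

/-- the resolvent identity -/
lemma gg_sub_gg {lam : ℝ} (hl : 0 ≤ lam) {Q R : Mt d} (hQ : Q.PosSemidef) (hR : R.PosSemidef) :
    gg lam Q - gg lam R = (lam : ℂ) • (gg lam Q * (R - Q) * gg lam R) := by
  have h1 := gg_mul hl hQ
  have h2 := mul_gg hl hR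
  have e : gg lam Q - gg lam R = gg lam Q * ((1 + (lam : ℂ) • R) - (1 + (lam : ℂ) • Q)) *
      gg lam R := by
    rw [Matrix.mul_sub, Matrix.sub_mul, h1, Matrix.one_mul, Matrix.mul_assoc, h2, Matrix.mul_one]
  rw [e, add_sub_add_left_eq_sub, ← smul_sub, Matrix.mul_smul, Matrix.smul_mul]

/-- the resolvent is antitone -/
lemma gg_anti {lam : ℝ} (hl : 0 ≤ lam) {Q R : Mt d} (hQ : Q.PosSemidef) (hR : R.PosSemidef)
    (h : Le Q R) : Le (gg lam R) (gg lam Q) := by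
  unfold Le at *
  have h0 := gg_sub_gg hl hQ hR
  have h1 : gg lam Q - gg lam R = (lam : ℂ) • ((gg lam R)ᴴ * (R - Q) * gg lam R) +
      ((lam ^ 2 : ℝ) : ℂ) • (((R - Q) * gg lam R)ᴴ * gg lam Q * ((R - Q) * gg lam R)) := by
    rw [gg_herm hl hR, Matrix.conjTranspose_mul, gg_herm hl hR, Matrix.conjTranspose_sub,
      hQ.1.eq, hR.1.eq]
    have e : gg lam Q = gg lam R + (lam : ℂ) • (gg lam R * (R - Q) * gg lam Q) := by
      have h3 := gg_sub_gg hl hR hQ
      have h4 : gg lam R * (R - Q) * gg lam Q = -(gg lam R * (Q - R) * gg lam Q) := by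
        rw [← neg_sub Q R, Matrix.mul_neg, Matrix.neg_mul]
      rw [h4, smul_neg, ← h3]
      abel
    rw [h0]
    conv_lhs => rw [e]
    rw [Matrix.add_mul, Matrix.add_mul, smul_add, Matrix.smul_mul, Matrix.smul_mul, smul_smul,
      ← Complex.ofReal_mul, ← sq]
    congr 2
    simp only [Matrix.mul_assoc]
  rw [h1]
  exact (psd_smul (h.conjTranspose_mul_mul_same _) hl).add
    (psd_smul ((gg_psd hl hQ).conjTranspose_mul_mul_same _) (sq_nonneg lam))

lemma Qs_psd {f : ℕ → Mt d} {i : ℕ} (h : ∀ j < i, IsPr (f j)) : (Qs f i).PosSemidef :=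
  Matrix.posSemidef_sum _ fun j hj => pr_psd (h j (Finset.mem_range.1 hj))

lemma Qs_succ (f : ℕ → Mt d) (i : ℕ) : Qs f (i + 1) = Qs f i + f i :=
  Finset.sum_range_succ _ _

lemma Qs_zero (f : ℕ → Mt d) : Qs f 0 = 0 := rfl

lemma gg_zero (lam : ℝ) : gg lam (0 : Mt d) = 1 := by
  simp [gg]

end Resolvent

end

end Pool.Agent.W683.RC
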