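import Pool.Agent.W661.RC.Stm2
import Pool.Agent.W683.RC.Bas

/-!
# Project RC (helper683 for helper661): matrices which nearly commute with `u` are close to blocks
-/

set_option autoImplicit false
set_option linter.unusedSectionVars false

namespace Pool.Agent.W683.RC.AS2

open Matrix
open scoped ComplexOrder
open Pool.Agent.W661.RC
open Pool.Agent.W683.RC

noncomputable section

/-! ### block diagonal matrices -/

section Blocks

variable {I : Type} [Fintype I] [DecidableEq I] {m n r : I → Type} [∀ i, Fintype (m i)]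
  [∀ i, Fintype (n i)] [∀ i, Fintype (r i)]

/-- the block `(i, j)` -/
def bl (M : Matrix (Σ i, m i) (Σ i, n i) ℂ) (i j : I) : Matrix (m i) (n j) ℂ :=
  fun p q => M ⟨i, p⟩ ⟨j, q⟩

omit [DecidableEq I] in
lemma hs_bl (M : Matrix (Σ i, m i) (Σ i, n i) ℂ) : hs M = ∑ i, ∑ j, hs (bl M i j) := by
  have e1 : hs M = ∑ i, ∑ p, ∑ j, ∑ q, ‖M ⟨i, p⟩ ⟨j, q⟩‖ ^ 2 := by
    unfold hs
    rw [Fintype.sum_sigma]
    refine Finset.sum_congr rfl fun i _ => Finset.sum_congr rfl fun p _ => ?_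
    rw [Fintype.sum_sigma]
  rw [e1]
  refine Finset.sum_congr rfl fun i _ => ?_
  rw [Finset.sum_comm]
  rfl

omit [∀ i, Fintype (n i)] [∀ i, Fintype (r i)] in
lemma bl_mul_left (A : ∀ i, Matrix (r i) (m i) ℂ) (M : Matrix (Σ i, m i) (Σ i, n i) ℂ) (i j : I) :
    bl (blockDiagonal' A * M) i j = A i * bl M i j := by
  ext p q
  change (blockDiagonal' A * M) ⟨i, p⟩ ⟨j, q⟩ = (A i * bl M i j) p q
  rw [Matrix.mul_apply, Fintype.sum_sigma, Finset.sum_eq_single i, Matrix.mul_apply]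
  · refine Finset.sum_congr rfl fun s _ => ?_
    rw [blockDiagonal'_apply_eq]
    rfl
  · intro k _ hk
    refine Finset.sum_eq_zero fun s _ => ?_
    rw [blockDiagonal'_apply_ne _ _ _ (Ne.symm hk), zero_mul]
  · intro h
    exact absurd (Finset.mem_univ i) h

omit [∀ i, Fintype (m i)] [∀ i, Fintype (r i)] in
lemma bl_mul_right (A : ∀ i, Matrix (n i) (r i) ℂ) (M : Matrix (Σ i, m i) (Σ i, n i) ℂ) (i j : I) :
    bl (M * blockDiagonal' A) i j = bl M i j * A j := by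
  ext p q
  change (M * blockDiagonal' A) ⟨i, p⟩ ⟨j, q⟩ = (bl M i j * A j) p q
  rw [Matrix.mul_apply, Fintype.sum_sigma, Finset.sum_eq_single j, Matrix.mul_apply]
  · refine Finset.sum_congr rfl fun s _ => ?_
    rw [blockDiagonal'_apply_eq]
    rfl
  · intro k _ hk
    refine Finset.sum_eq_zero fun s _ => ?_
    rw [blockDiagonal'_apply_ne _ _ _ hk, mul_zero]
  · intro h
    exact absurd (Finset.mem_univ j) h

lemma hs_blockDiagonal' (A : ∀ i, Matrix (m i) (n i) ℂ) :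
    hs (blockDiagonal' A) = ∑ i, hs (A i) := by
  rw [hs_eq, blockDiagonal'_conjTranspose, ← blockDiagonal'_mul, Matrix.trace_blockDiagonal',
    Complex.re_sum]
  exact Finset.sum_congr rfl fun i _ => (hs_eq _).symm

end Blocks

/-! ### contractions -/

section Contr

lemma ct_iff {m n : Type} [Fintype m] [Fintype n] [DecidableEq n] (A : Matrix m n ℂ) :
    Le (Aᴴ * A) 1 ↔ ∀ v : n → ℂ, ∑ i, ‖(A *ᵥ v) i‖ ^ 2 ≤ ∑ j, ‖v j‖ ^ 2 := by
  have sq : ∀ {o : Type} [Fintype o] (w : o → ℂ),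
      star w ⬝ᵥ w = ((∑ i, ‖w i‖ ^ 2 : ℝ) : ℂ) := by
    intro o _ w
    simp only [dotProduct, Pi.star_apply, RCLike.star_def, Complex.ofReal_sum, Complex.ofReal_pow]
    exact Finset.sum_congr rfl fun i _ => Complex.conj_mul' (w i)
  have key : ∀ v : n → ℂ, star v ⬝ᵥ ((1 - Aᴴ * A) *ᵥ v) =
      ((∑ j, ‖v j‖ ^ 2 - ∑ i, ‖(A *ᵥ v) i‖ ^ 2 : ℝ) : ℂ) := by
    intro v
    rw [Matrix.sub_mulVec, Matrix.one_mulVec, dotProduct_sub, ← Matrix.mulVec_mulVec,
      Matrix.dotProduct_mulVec (star v) Aᴴ, ← Matrix.star_mulVec, sq, sq, Complex.ofReal_sub]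
  unfold Le
  rw [posSemidef_iff_dotProduct_mulVec]
  constructor
  · rintro ⟨-, h⟩ v
    have := h v
    rw [key] at this
    have h2 : (0 : ℝ) ≤ ∑ j, ‖v j‖ ^ 2 - ∑ i, ‖(A *ᵥ v) i‖ ^ 2 := by exact_mod_cast this
    linarith
  · intro h
    refine ⟨Matrix.isHermitian_one.sub (Matrix.isHermitian_conjTranspose_mul_self A),
      fun v => ?_⟩
    rw [key]
    have := h v
    have h2 : (0 : ℝ) ≤ ∑ j, ‖v j‖ ^ 2 - ∑ i, ‖(A *ᵥ v) i‖ ^ 2 := by linarith
    exact_mod_cast h2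

/-- pinching -/
def pin {J T : Type} [DecidableEq T] (t : J → T) (Y : Matrix J J ℂ) : Matrix J J ℂ :=
  fun x y => if t x = t y then Y x y else 0

lemma ct_pin {J T : Type} [Fintype J] [DecidableEq J] [DecidableEq T] (t : J → T)
    (Y : Matrix J J ℂ) (h : Le (Yᴴ * Y) 1) : Le ((pin t Y)ᴴ * pin t Y) 1 := by
  rw [ct_iff] at h ⊢
  intro v
  have e1 : ∀ x, (pin t Y *ᵥ v) x = (Y *ᵥ (fun y => if t y = t x then v y else 0)) x := by
    intro x
    simp only [Matrix.mulVec, dotProduct, pin]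
    refine Finset.sum_congr rfl fun y _ => ?_
    by_cases hxy : t x = t y
    · rw [if_pos hxy, if_pos hxy.symm]
    · rw [if_neg hxy, if_neg (Ne.symm hxy), zero_mul, mul_zero]
  have hm : ∀ x ∈ (Finset.univ : Finset J), t x ∈ Finset.univ.image t :=
    fun x _ => Finset.mem_image_of_mem t (Finset.mem_univ x)
  rw [← Finset.sum_fiberwise_of_maps_to hm, ← Finset.sum_fiberwise_of_maps_to hm]
  refine Finset.sum_le_sum fun τ _ => ?_
  have h1 := h (fun y => if t y = τ then v y else 0)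
  calc ∑ x ∈ Finset.univ.filter (fun x => t x = τ), ‖(pin t Y *ᵥ v) x‖ ^ 2
      = ∑ x ∈ Finset.univ.filter (fun x => t x = τ),
          ‖(Y *ᵥ (fun y => if t y = τ then v y else 0)) x‖ ^ 2 := by
        refine Finset.sum_congr rfl fun x hx => ?_
        rw [e1, (Finset.mem_filter.1 hx).2]
    _ ≤ ∑ x, ‖(Y *ᵥ (fun y => if t y = τ then v y else 0)) x‖ ^ 2 :=
        Finset.sum_le_sum_of_subset_of_nonneg (Finset.filter_subset _ _)
          fun _ _ _ => by positivity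
    _ ≤ ∑ y, ‖(if t y = τ then v y else 0 : ℂ)‖ ^ 2 := h1
    _ = ∑ y ∈ Finset.univ.filter (fun y => t y = τ), ‖v y‖ ^ 2 := by
        rw [Finset.sum_filter]
        refine Finset.sum_congr rfl fun y _ => ?_
        split_ifs <;> simp

lemma ct_avg {J ι : Type} [Fintype J] [DecidableEq J] (s : Finset ι) (hs : 0 < s.card)
    (F : ι → Matrix J J ℂ) (h : ∀ i ∈ s, Le ((F i)ᴴ * F i) 1) :
    Le ((((s.card : ℂ)⁻¹) • ∑ i ∈ s, F i)ᴴ * (((s.card : ℂ)⁻¹) • ∑ i ∈ s, F i)) 1 := by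
  rw [ct_iff]
  intro v
  have hc : (0 : ℝ) < s.card := by exact_mod_cast hs
  have h1 : ∀ x, ‖((((s.card : ℂ)⁻¹) • ∑ i ∈ s, F i) *ᵥ v) x‖ ^ 2 ≤
      (s.card : ℝ)⁻¹ * ∑ i ∈ s, ‖(F i *ᵥ v) x‖ ^ 2 := by
    intro x
    rw [Matrix.smul_mulVec, Matrix.sum_mulVec, Pi.smul_apply, Finset.sum_apply, norm_smul,
      norm_inv, Complex.norm_natCast, mul_pow]
    have h2 : ‖∑ i ∈ s, (F i *ᵥ v) x‖ ^ 2 ≤ s.card * ∑ i ∈ s, ‖(F i *ᵥ v) x‖ ^ 2 :=
      (pow_le_pow_left₀ (norm_nonneg _) (norm_sum_le _ _) 2).trans sq_sum_le_card_mul_sum_sq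
    calc ((s.card : ℝ)⁻¹) ^ 2 * ‖∑ i ∈ s, (F i *ᵥ v) x‖ ^ 2
        ≤ ((s.card : ℝ)⁻¹) ^ 2 * (s.card * ∑ i ∈ s, ‖(F i *ᵥ v) x‖ ^ 2) :=
          mul_le_mul_of_nonneg_left h2 (by positivity)
      _ = (s.card : ℝ)⁻¹ * ∑ i ∈ s, ‖(F i *ᵥ v) x‖ ^ 2 := by
          field_simp
  refine (Finset.sum_le_sum fun x _ => h1 x).trans ?_
  rw [← Finset.mul_sum, Finset.sum_comm]
  have h3 : ∀ i ∈ s, ∑ x, ‖(F i *ᵥ v) x‖ ^ 2 ≤ ∑ j, ‖v j‖ ^ 2 :=
    fun i hi => (ct_iff (F i)).1 (h i hi) v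
  have h4 := Finset.sum_le_sum h3
  rw [Finset.sum_const, nsmul_eq_mul] at h4
  calc (s.card : ℝ)⁻¹ * ∑ i ∈ s, ∑ x, ‖(F i *ᵥ v) x‖ ^ 2
      ≤ (s.card : ℝ)⁻¹ * (s.card * ∑ j, ‖v j‖ ^ 2) :=
        mul_le_mul_of_nonneg_left h4 (by positivity)
    _ = ∑ j, ‖v j‖ ^ 2 := by field_simp

lemma ct_submatrix {J : Type} [Fintype J] [DecidableEq J] (σ : Equiv.Perm J)
    (Y : Matrix J J ℂ) (h : Le (Yᴴ * Y) 1) :
    Le ((Y.submatrix σ σ)ᴴ * Y.submatrix σ σ) 1 := by
  unfold Le at *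
  have e : (1 : Matrix J J ℂ) - (Y.submatrix σ σ)ᴴ * Y.submatrix σ σ =
      (1 - Yᴴ * Y).submatrix σ σ := by
    rw [Matrix.conjTranspose_submatrix, Matrix.submatrix_mul_equiv]
    conv_lhs => rw [← Matrix.submatrix_one_equiv σ]
    rfl
  rw [e]
  exact h.submatrix _

end Contr

/-! ### the conditional expectation -/

section Cond

variable {I K : Type} [Fintype I] [DecidableEq I] [DecidableEq K] (c : I → K) (l : K → ℕ)

/-- the type of an index -/
def tt (x : Jx c l) : K × ℕ := (c x.1, (x.2 : ℕ))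

/-- the rotation -/
def sg : Equiv.Perm (Jx c l) := Equiv.sigmaCongrRight (fun i => finRotate (l (c i)))

omit [Fintype I] [DecidableEq I] [DecidableEq K] in
lemma sg_apply (i : I) (p : Fin (l (c i))) : sg c l ⟨i, p⟩ = ⟨i, finRotate (l (c i)) p⟩ := rfl

lemma finRotate_val (n : ℕ) (p : Fin n) : ((finRotate n p : Fin n) : ℕ) = (p + 1) % n := by
  cases n with
  | zero => exact p.elim0
  | succ n =>
    rw [coe_finRotate]
    split_ifs with h
    · subst h
      simp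
    · have h1 : (p : ℕ) < n := by
        rcases Nat.lt_or_ge (p : ℕ) n with h2 | h2
        · exact h2
        · exact absurd (Fin.ext (by simp; omega)) h
      rw [Nat.mod_eq_of_lt (by omega)]

/-- the rotation of types -/
def rt (τ : K × ℕ) : K × ℕ := (τ.1, (τ.2 + 1) % l τ.1)

omit [Fintype I] [DecidableEq I] [DecidableEq K] in
lemma tt_sg (x : Jx c l) : tt c l (sg c l x) = rt l (tt c l x) := by
  obtain ⟨i, p⟩ := x
  rw [sg_apply]
  unfold tt rt
  simp only [finRotate_val]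

omit [Fintype I] [DecidableEq I] [DecidableEq K] in
lemma tt_sg_pow (t : ℕ) (x : Jx c l) : tt c l ((sg c l ^ t) x) = (rt l)^[t] (tt c l x) := by
  induction t with
  | zero => rfl
  | succ t ih =>
    rw [pow_succ', Equiv.Perm.mul_apply, tt_sg, ih, Function.iterate_succ_apply']

/-- the order of the rotation -/
def oL : ℕ := orderOf (sg c l)

omit [DecidableEq K] in
lemma oL_pos : 0 < oL c l := orderOf_pos _

omit [Fintype I] [DecidableEq I] [DecidableEq K] in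
lemma tt_sg_iff (t : ℕ) (h : t ≤ oL c l) (x y : Jx c l) :
    tt c l ((sg c l ^ t) x) = tt c l ((sg c l ^ t) y) ↔ tt c l x = tt c l y := by
  constructor
  · intro h1
    have h2 := congrArg (rt l)^[oL c l - t] h1
    rw [tt_sg_pow, tt_sg_pow, ← Function.iterate_add_apply, ← Function.iterate_add_apply,
      Nat.sub_add_cancel h, ← tt_sg_pow, ← tt_sg_pow] at h2
    have h3 : sg c l ^ oL c l = 1 := pow_orderOf_eq_one _
    rw [h3] at h2
    exact h2
  · intro h1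
    rw [tt_sg_pow, tt_sg_pow, h1]

/-- the conditional expectation onto the blocks -/
def ce (Y : Matrix (Jx c l) (Jx c l) ℂ) : Matrix (Jx c l) (Jx c l) ℂ :=
  (((Finset.range (oL c l)).card : ℂ)⁻¹) • ∑ t ∈ Finset.range (oL c l),
    (pin (tt c l) Y).submatrix (sg c l ^ t) (sg c l ^ t)

lemma ct_ce {Y : Matrix (Jx c l) (Jx c l) ℂ} (h : Le (Yᴴ * Y) 1) :
    Le ((ce c l Y)ᴴ * ce c l Y) 1 := by
  refine ct_avg _ ?_ _ fun t _ => ct_submatrix _ _ (ct_pin _ _ h)
  rw [Finset.card_range]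
  exact oL_pos c l

lemma ce_apply (Y : Matrix (Jx c l) (Jx c l) ℂ) (x y : Jx c l) :
    ce c l Y x y = ((oL c l : ℂ)⁻¹) * ∑ t ∈ Finset.range (oL c l),
      pin (tt c l) Y ((sg c l ^ t) x) ((sg c l ^ t) y) := by
  unfold ce
  rw [Matrix.smul_apply, Matrix.sum_apply, smul_eq_mul, Finset.card_range]
  rfl

lemma ce_off (Y : Matrix (Jx c l) (Jx c l) ℂ) {x y : Jx c l} (h : tt c l x ≠ tt c l y) :
    ce c l Y x y = 0 := by
  rw [ce_apply, Finset.sum_eq_zero, mul_zero]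
  intro t ht
  unfold pin
  rw [if_neg]
  intro h1
  exact h ((tt_sg_iff c l t (Finset.mem_range.1 ht).le x y).1 h1)

lemma ce_sg (Y : Matrix (Jx c l) (Jx c l) ℂ) (x y : Jx c l) :
    ce c l Y (sg c l x) (sg c l y) = ce c l Y x y := by
  rw [ce_apply, ce_apply]
  congr 1
  set g : ℕ → ℂ := fun t => pin (tt c l) Y ((sg c l ^ t) x) ((sg c l ^ t) y) with hg
  have h1 : ∀ t, pin (tt c l) Y ((sg c l ^ t) (sg c l x)) ((sg c l ^ t) (sg c l y)) = g (t + 1) := by
    intro t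
    simp only [hg, pow_succ, Equiv.Perm.mul_apply]
  simp only [h1]
  have h2 := Finset.sum_range_succ g (oL c l)
  have h3 := Finset.sum_range_succ' g (oL c l)
  have h4 : g (oL c l) = g 0 := by
    simp only [hg]
    have h5 : sg c l ^ oL c l = 1 := pow_orderOf_eq_one _
    rw [h5, pow_zero]
  rw [h2, h4] at h3
  exact (add_right_cancel h3).symm

/-- the coefficients -/
def al (Y : Matrix (Jx c l) (Jx c l) ℂ) : Matrix I I ℂ := fun i j =>
  if h : c i = c j ∧ 0 < l (c i) then ce c l Y ⟨i, ⟨0, h.2⟩⟩ ⟨j, ⟨0, h.1 ▸ h.2⟩⟩ else 0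

lemma blk_ce (Y : Matrix (Jx c l) (Jx c l) ℂ) : Blk c l (ce c l Y) := by
  refine ⟨al c l Y, ?_, ?_⟩
  · intro i j h
    unfold al
    rw [dif_neg]
    exact fun h1 => h h1.1
  · have key : ∀ (i j : I) (h : c i = c j) (p : ℕ) (hp : p < l (c i)) (hp' : p < l (c j)),
        ce c l Y ⟨i, ⟨p, hp⟩⟩ ⟨j, ⟨p, hp'⟩⟩ = al c l Y i j := by
      intro i j h p
      induction p with
      | zero =>
        intro hp hp'
        unfold al
        rw [dif_pos ⟨h, hp⟩]
      | succ p ih =>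
        intro hp hp'
        have h1 := ih (by omega) (by omega)
        rw [← ce_sg] at h1
        rw [← h1]
        have e1 : ∀ (k : I) (h2 : p < l (c k)) (h3 : p + 1 < l (c k)),
            sg c l ⟨k, ⟨p, h2⟩⟩ = ⟨k, ⟨p + 1, h3⟩⟩ := by
          intro k h2 h3
          rw [sg_apply]
          congr 1
          apply Fin.ext
          rw [finRotate_val]
          exact Nat.mod_eq_of_lt h3
        rw [e1 i (by omega) hp, e1 j (by omega) hp']
    rintro ⟨i, p⟩ ⟨j, r⟩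
    by_cases h : c i = c j
    · by_cases hpr : (p : ℕ) = (r : ℕ)
      · rw [if_pos hpr]
        obtain ⟨p, hp⟩ := p
        obtain ⟨r, hr⟩ := r
        simp only at hpr
        subst hpr
        exact key i j h p hp hr
      · rw [if_neg hpr]
        refine ce_off c l Y fun h1 => hpr ?_
        exact (Prod.mk.injEq _ _ _ _ ▸ h1 : c i = c j ∧ (p : ℕ) = (r : ℕ)).2
    · have h0 : ce c l Y ⟨i, p⟩ ⟨j, r⟩ = 0 := by
        refine ce_off c l Y fun h1 => h ?_
        exact (Prod.mk.injEq _ _ _ _ ▸ h1 : c i = c j ∧ (p : ℕ) = (r : ℕ)).1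
      rw [h0]
      split_ifs
      · unfold al
        rw [dif_neg]
        exact fun h1 => h h1.1
      · rfl

omit [Fintype I] [DecidableEq I] in
lemma blk_off {B : Matrix (Jx c l) (Jx c l) ℂ} (hB : Blk c l B) {x y : Jx c l}
    (h : tt c l x ≠ tt c l y) : B x y = 0 := by
  obtain ⟨β, h1, h2⟩ := hB
  rw [h2]
  split_ifs with h3
  · refine h1 _ _ fun h4 => h ?_
    unfold tt
    rw [h3, h4]
  · rfl

omit [Fintype I] [DecidableEq I] in
lemma blk_sg {B : Matrix (Jx c l) (Jx c l) ℂ} (hB : Blk c l B) {x y : Jx c l}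
    {x' y' : Jx c l} (hx : x'.1 = x.1) (hy : y'.1 = y.1)
    (h : tt c l x' = tt c l y' ↔ tt c l x = tt c l y) : B x' y' = B x y := by
  by_cases h0 : tt c l x = tt c l y
  · have h0' := h.2 h0
    obtain ⟨β, h1, h2⟩ := hB
    rw [h2 x' y', h2 x y]
    unfold tt at h0 h0'
    rw [Prod.mk.injEq] at h0 h0'
    rw [if_pos h0.2, if_pos h0'.2, hx, hy]
  · rw [blk_off c l hB h0, blk_off c l hB (fun h1 => h0 (h.1 h1))]

omit [Fintype I] [DecidableEq I] [DecidableEq K] in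
lemma sg_pow_fst (t : ℕ) (x : Jx c l) : ((sg c l ^ t) x).1 = x.1 := by
  induction t with
  | zero => rfl
  | succ t ih =>
    rw [pow_succ', Equiv.Perm.mul_apply]
    exact ih

omit [DecidableEq I] in
lemma inner_sum (A B : Matrix (Jx c l) (Jx c l) ℂ) :
    Matrix.trace (Aᴴ * B) = ∑ x, ∑ y, starRingEnd ℂ (A x y) * B x y := by
  simp only [Matrix.trace, Matrix.diag, Matrix.mul_apply, Matrix.conjTranspose_apply]
  rw [Finset.sum_comm]
  rfl

/-- `ce` is the orthogonal projection onto the blocks -/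
lemma ce_orth (Y : Matrix (Jx c l) (Jx c l) ℂ) {B : Matrix (Jx c l) (Jx c l) ℂ}
    (hB : Blk c l B) : Matrix.trace ((ce c l Y)ᴴ * B) = Matrix.trace (Yᴴ * B) := by
  have hL : (oL c l : ℂ) ≠ 0 := by exact_mod_cast (oL_pos c l).ne'
  have h1 : ∀ t ∈ Finset.range (oL c l),
      Matrix.trace (((pin (tt c l) Y).submatrix (sg c l ^ t) (sg c l ^ t))ᴴ * B) =
      Matrix.trace (Yᴴ * B) := by
    intro t ht
    rw [inner_sum, inner_sum]
    have h2 : ∀ x y, B x y = B ((sg c l ^ t) x) ((sg c l ^ t) y) := fun x y =>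
      (blk_sg c l hB (sg_pow_fst c l t x) (sg_pow_fst c l t y)
        (tt_sg_iff c l t (Finset.mem_range.1 ht).le x y)).symm
    have h3 : ∑ x, ∑ y, starRingEnd ℂ
        ((pin (tt c l) Y).submatrix (sg c l ^ t) (sg c l ^ t) x y) * B x y =
        ∑ x, ∑ y, starRingEnd ℂ (pin (tt c l) Y x y) * B x y := by
      rw [← Equiv.sum_comp (sg c l ^ t)
        (fun x => ∑ y, starRingEnd ℂ (pin (tt c l) Y x y) * B x y)]
      refine Finset.sum_congr rfl fun x _ => ?_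
      rw [← Equiv.sum_comp (sg c l ^ t)
        (fun y => starRingEnd ℂ (pin (tt c l) Y ((sg c l ^ t) x) y) * B ((sg c l ^ t) x) y)]
      refine Finset.sum_congr rfl fun y _ => ?_
      rw [h2 x y]
      rfl
    rw [h3]
    refine Finset.sum_congr rfl fun x _ => Finset.sum_congr rfl fun y _ => ?_
    unfold pin
    by_cases h4 : tt c l x = tt c l y
    · rw [if_pos h4]
    · rw [blk_off c l hB h4, mul_zero, mul_zero]
  unfold ce
  rw [Matrix.conjTranspose_smul, Matrix.conjTranspose_sum, Matrix.smul_mul, Matrix.sum_mul,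
    Matrix.trace_smul, Matrix.trace_sum, Finset.sum_congr rfl h1, Finset.sum_const,
    Finset.card_range, nsmul_eq_mul, smul_eq_mul, star_inv₀, RCLike.star_def,
    Complex.conj_natCast, ← mul_assoc, inv_mul_cancel₀ hL, one_mul]

lemma blk_sub {A B : Matrix (Jx c l) (Jx c l) ℂ} (hA : Blk c l A) (hB : Blk c l B) :
    Blk c l (A - B) := by
  obtain ⟨α, a1, a2⟩ := hA
  obtain ⟨β, b1, b2⟩ := hB
  refine ⟨α - β, fun i j h => ?_, fun x y => ?_⟩
  · rw [Matrix.sub_apply, a1 i j h, b1 i j h, sub_zero]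
  · rw [Matrix.sub_apply, a2, b2]
    split_ifs
    · rfl
    · rw [sub_zero]

/-- `ce` gives the best approximation by blocks -/
lemma hs_ce_le (Y : Matrix (Jx c l) (Jx c l) ℂ) {Z : Matrix (Jx c l) (Jx c l) ℂ}
    (hZ : Blk c l Z) : hs (Y - ce c l Y) ≤ hs (Y - Z) := by
  have h1 := ce_orth c l Y (blk_sub c l (blk_ce c l Y) hZ)
  have h2 : tr ((Y - ce c l Y)ᴴ * (ce c l Y - Z)) = 0 := by
    unfold tr
    rw [Matrix.conjTranspose_sub, Matrix.sub_mul, Matrix.trace_sub, ← h1, sub_self]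
    simp
  have h3 : tr ((ce c l Y - Z)ᴴ * (Y - ce c l Y)) = 0 := by
    rw [← tr_conjTranspose, Matrix.conjTranspose_mul, Matrix.conjTranspose_conjTranspose]
    exact h2
  have e : Y - Z = (Y - ce c l Y) + (ce c l Y - Z) := by abel
  have h4 : hs (Y - Z) = hs (Y - ce c l Y) + hs (ce c l Y - Z) := by
    rw [e, hs_eq_tr, Matrix.conjTranspose_add, Matrix.add_mul, Matrix.mul_add, Matrix.mul_add,
      tr_add, tr_add, tr_add, h2, h3, ← hs_eq_tr, ← hs_eq_tr]
    ring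
  linarith [hs_nonneg (ce c l Y - Z)]

end Cond

/-! ### contractions, products -/

lemma ct_mul {m n r : Type} [Fintype m] [Fintype n] [Fintype r] [DecidableEq n] [DecidableEq r]
    {A : Matrix m n ℂ} {B : Matrix n r ℂ} (hA : Le (Aᴴ * A) 1) (hB : Le (Bᴴ * B) 1) :
    Le ((A * B)ᴴ * (A * B)) 1 := by
  have h := Le_conj hA B
  rw [Matrix.mul_one] at h
  rw [Matrix.conjTranspose_mul]
  have e : Bᴴ * Aᴴ * (A * B) = Bᴴ * (Aᴴ * A) * B := by simp only [Matrix.mul_assoc]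
  rw [e]
  exact Le_trans h hB

lemma ct_iso {m n : Type} [Fintype m] [Fintype n] [DecidableEq n] {A : Matrix m n ℂ}
    (hA : Aᴴ * A = 1) : Le (Aᴴ * A) 1 := by
  rw [hA]
  exact Le_refl 1

lemma ct_iso' {m n : Type} [Fintype m] [Fintype n] [DecidableEq m] [DecidableEq n]
    {A : Matrix m n ℂ} (hA : Aᴴ * A = 1) : Le ((Aᴴ)ᴴ * Aᴴ) 1 := by
  rw [Matrix.conjTranspose_conjTranspose]
  exact contr_conj (ct_iso hA)

lemma hs_sandwich {m n r o : Type} [Fintype m] [Fintype n] [Fintype r] [Fintype o]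
    [DecidableEq n] [DecidableEq r] {A : Matrix m n ℂ} {B : Matrix o r ℂ} (hA : Aᴴ * A = 1)
    (hB : Bᴴ * B = 1) (W : Matrix n r ℂ) : hs (A * W * Bᴴ) = hs W := by
  rw [hs_mul_coisom (u := Bᴴ) (by rw [Matrix.conjTranspose_conjTranspose]; exact hB),
    hs_isom_mul hA]

section Main

variable {d : ℕ} {I K : Type} [Fintype I] [DecidableEq I] [DecidableEq K] (c : I → K) (l : K → ℕ)
  (b : (κ : K) → Matrix (Fin d) (Fin (l κ)) ℂ)

/-- the big isometry -/
def BB : Matrix (Σ _ : I, Fin d) (Jx c l) ℂ := blockDiagonal' (fun i => b (c i))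

/-- the big unitary -/
def UU (I : Type) [DecidableEq I] (u : Mt d) : Matrix (Σ _ : I, Fin d) (Σ _ : I, Fin d) ℂ :=
  blockDiagonal' (fun _ => u)

lemma Ut_eq (u : Mt d) :
    Ut c l b u = blockDiagonal' (fun i => (b (c i))ᴴ * u * b (c i)) := by
  ext ⟨i, p⟩ ⟨j, q⟩
  by_cases h : i = j
  · subst h
    rw [blockDiagonal'_apply_eq]
    unfold Ut
    rw [if_pos rfl]
  · rw [blockDiagonal'_apply_ne _ _ _ h]
    unfold Ut
    rw [if_neg h]

lemma BB_iso (hb : ∀ κ, (b κ)ᴴ * b κ = 1) : (BB c l b)ᴴ * BB c l b = 1 := by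
  unfold BB
  rw [blockDiagonal'_conjTranspose, ← blockDiagonal'_mul]
  simp only [hb]
  exact blockDiagonal'_one

lemma UB_sub (u : Mt d) : UU I u * BB c l b - BB c l b * Ut c l b u =
    blockDiagonal' (fun i => u * b (c i) - b (c i) * ((b (c i))ᴴ * u * b (c i))) := by
  rw [Ut_eq]
  unfold UU BB
  rw [← blockDiagonal'_mul, ← blockDiagonal'_mul, ← blockDiagonal'_sub]
  rfl

lemma UU_conj (u : Mt d) : (UU I u)ᴴ = UU I uᴴ := by
  unfold UU
  rw [blockDiagonal'_conjTranspose]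

lemma Ut_conj (u : Mt d) : (Ut c l b u)ᴴ = Ut c l b uᴴ := by
  rw [Ut_eq, Ut_eq, blockDiagonal'_conjTranspose]
  congr 1
  funext i
  rw [Matrix.conjTranspose_mul, Matrix.conjTranspose_mul, Matrix.conjTranspose_conjTranspose,
    Matrix.mul_assoc]

/-- the blocks of the dilation -/
def xt (Y : Matrix (Jx c l) (Jx c l) ℂ) (i j : I) : Mt d := b (c i) * bl Y i j * (b (c j))ᴴ

lemma bl_sub {m n : I → Type} (M N : Matrix (Σ i, m i) (Σ i, n i) ℂ) (i j : I) :
    bl (M - N) i j = bl M i j - bl N i j := rfl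

lemma bl_X (Y : Matrix (Jx c l) (Jx c l) ℂ) (i j : I) :
    bl (BB c l b * Y * (BB c l b)ᴴ) i j = xt c l b Y i j := by
  unfold BB
  rw [blockDiagonal'_conjTranspose, bl_mul_right, bl_mul_left]
  rfl

lemma key1 (hb : ∀ κ, (b κ)ᴴ * b κ = 1) (u : Mt d) (Y : Matrix (Jx c l) (Jx c l) ℂ)
    (hY : Le (Yᴴ * Y) 1) :
    ∑ i, ∑ j, hs (u * xt c l b Y i j - xt c l b Y i j * u) ≤
      3 * (hs (Ut c l b u * Y - Y * Ut c l b u) +
        ∑ i, hs (u * b (c i) - b (c i) * ((b (c i))ᴴ * u * b (c i))) +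
        ∑ i, hs (uᴴ * b (c i) - b (c i) * ((b (c i))ᴴ * uᴴ * b (c i)))) := by
  set B := BB c l b with hB
  set U := UU I u with hU
  set V := Ut c l b u with hV
  have hBi : Bᴴ * B = 1 := BB_iso c l b hb
  have e1 : ∑ i, ∑ j, hs (u * xt c l b Y i j - xt c l b Y i j * u) =
      hs (U * (B * Y * Bᴴ) - B * Y * Bᴴ * U) := by
    rw [hs_bl]
    refine Finset.sum_congr rfl fun i _ => Finset.sum_congr rfl fun j _ => ?_
    rw [bl_sub, hU, UU, bl_mul_left, bl_mul_right, bl_X]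
  have e2 : U * (B * Y * Bᴴ) - B * Y * Bᴴ * U = B * (V * Y - Y * V) * Bᴴ +
      (U * B - B * V) * Y * Bᴴ + (-(B * (Y * (Bᴴ * U - V * Bᴴ)))) := by
    simp only [Matrix.mul_sub, Matrix.sub_mul, Matrix.mul_assoc]
    abel
  have h1 : hs (B * (V * Y - Y * V) * Bᴴ) = hs (V * Y - Y * V) := hs_sandwich hBi hBi _
  have h2 : hs ((U * B - B * V) * Y * Bᴴ) ≤
      ∑ i, hs (u * b (c i) - b (c i) * ((b (c i))ᴴ * u * b (c i))) := by
    rw [hs_mul_coisom (u := Bᴴ) (by rw [Matrix.conjTranspose_conjTranspose]; exact hBi)]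
    refine (hs_mul_le_right hY _).trans (le_of_eq ?_)
    rw [hU, hB, hV, UB_sub, hs_blockDiagonal']
  have h3 : hs (-(B * (Y * (Bᴴ * U - V * Bᴴ)))) ≤
      ∑ i, hs (uᴴ * b (c i) - b (c i) * ((b (c i))ᴴ * uᴴ * b (c i))) := by
    rw [hs_neg, hs_isom_mul hBi]
    refine (hs_mul_le hY _).trans (le_of_eq ?_)
    rw [← hs_conjTranspose, Matrix.conjTranspose_sub, Matrix.conjTranspose_mul,
      Matrix.conjTranspose_mul, Matrix.conjTranspose_conjTranspose, hU, UU_conj, hV, Ut_conj, hB,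
      UB_sub, hs_blockDiagonal']
  rw [e1, e2]
  refine (hs_add3_le _ _ _).trans ?_
  rw [h1]
  linarith

/-- the identity between index sets of the same size -/
def Ei (n m : ℕ) : Matrix (Fin n) (Fin m) ℂ := fun p r => if (p : ℕ) = (r : ℕ) then 1 else 0

lemma b_mul (hb : ∀ κ, (b κ)ᴴ * b κ = 1) {κ κ' : K} (h : κ = κ') :
    (b κ)ᴴ * b κ' = Ei (l κ) (l κ') := by
  subst h
  rw [hb]
  ext p r
  unfold Ei
  rw [Matrix.one_apply]
  simp only [Fin.ext_iff]

lemma key2 (hb : ∀ κ, (b κ)ᴴ * b κ = 1) {k : ℕ} (u : Fin k → Mt d) (q : K → Mt d)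
    {C2 ζ γ : ℝ} (hγ : 0 < γ) (hC2 : 0 ≤ C2) (hζ : 0 ≤ ζ) (hq : ∀ κ, IsPr (q κ))
    (hqb : ∀ κ, q κ * b κ = b κ) (hGap : ∀ i, Gap u C2 ζ (q (c i)))
    (hcr : ∀ i j, c i ≠ c j → ∀ x : Mt d, q (c i) * x * q (c j) = x → γ * hs x ≤ en u x)
    (Y : Matrix (Jx c l) (Jx c l) ℂ) (i j : I) :
    ∃ m : ℂ, (c i ≠ c j → m = 0) ∧ hs (bl Y i j - m • Ei (l (c i)) (l (c j))) ≤
      (C2 + 1 / γ) * en u (xt c l b Y i j) + C2 * ζ * hs (bl Y i j) := by
  have hqx : q (c i) * xt c l b Y i j * q (c j) = xt c l b Y i j := by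
    have h1 : (b (c j))ᴴ * q (c j) = (b (c j))ᴴ := by
      have := congrArg Matrix.conjTranspose (hqb (c j))
      rwa [Matrix.conjTranspose_mul, (hq (c j)).1] at this
    unfold xt
    rw [Matrix.mul_assoc (q (c i)), Matrix.mul_assoc (b (c i) * bl Y i j), h1, ← Matrix.mul_assoc,
      ← Matrix.mul_assoc, hqb]
  have hhs : hs (xt c l b Y i j) = hs (bl Y i j) := hs_sandwich (hb _) (hb _) _
  have hen := en_nonneg u (xt c l b Y i j)
  have hh := hs_nonneg (bl Y i j)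
  by_cases h : c i = c j
  · have hqx' : q (c i) * xt c l b Y i j * q (c i) = xt c l b Y i j := by
      conv_lhs => rw [h]
      conv_lhs => rw [← h]
      rw [h] at hqx ⊢
      exact hqx
    obtain ⟨m, hm⟩ := hGap i (xt c l b Y i j) hqx'
    refine ⟨m, fun h1 => absurd h h1, ?_⟩
    have e1 : (b (c i))ᴴ * (xt c l b Y i j - m • q (c i)) * b (c j) =
        bl Y i j - m • Ei (l (c i)) (l (c j)) := by
      have h2 : (b (c i))ᴴ * xt c l b Y i j * b (c j) = bl Y i j := by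
        unfold xt
        have : (b (c i))ᴴ * (b (c i) * bl Y i j * (b (c j))ᴴ) * b (c j) =
            ((b (c i))ᴴ * b (c i)) * bl Y i j * ((b (c j))ᴴ * b (c j)) := by
          simp only [Matrix.mul_assoc]
        rw [this, hb, hb, Matrix.one_mul, Matrix.mul_one]
      have h3 : (b (c i))ᴴ * (m • q (c i)) * b (c j) = m • Ei (l (c i)) (l (c j)) := by
        rw [Matrix.mul_smul, Matrix.smul_mul, Matrix.mul_assoc]
        have h4 : q (c i) * b (c j) = b (c j) := by rw [h]; exact hqb (c j)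
        rw [h4, b_mul l b hb h]
      rw [Matrix.mul_sub, Matrix.sub_mul, h2, h3]
    have h5 : hs (bl Y i j - m • Ei (l (c i)) (l (c j))) ≤
        hs (xt c l b Y i j - m • q (c i)) := by
      rw [← e1]
      exact (hs_mul_le_right (ct_iso (hb (c j))) _).trans (hs_mul_le (ct_iso' (hb (c i))) _)
    rw [hhs] at hm
    have h6 : 0 ≤ 1 / γ * en u (xt c l b Y i j) := mul_nonneg (by positivity) hen
    nlinarith
  · refine ⟨0, fun _ => rfl, ?_⟩
    rw [zero_smul, sub_zero]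
    have h1 := hcr i j h _ hqx
    rw [hhs] at h1
    have h2 : hs (bl Y i j) ≤ 1 / γ * en u (xt c l b Y i j) := by
      rw [one_div, ← div_eq_inv_mul, le_div_iff₀ hγ]
      linarith
    have h3 : 0 ≤ C2 * en u (xt c l b Y i j) := mul_nonneg hC2 hen
    have h4 : 0 ≤ C2 * ζ * hs (bl Y i j) := mul_nonneg (mul_nonneg hC2 hζ) hh
    linarith

end Main

/-- AS2 -/
theorem main : As2P := by
  intro d k u I K _ _ _ c l b q Θ ω ω' C2 ζ γ hu hγ hC2 hζ hΘ hb hq hqb hGap hcr h1 h2 h3 h4 x hx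
  set Y := Θᴴ * x * Θ with hYdef
  have hY : Le (Yᴴ * Y) 1 := ct_mul (ct_mul (ct_iso' hΘ) hx) (ct_iso hΘ)
  have hcard : (Fintype.card (Jx c l) : ℝ) = tr (1 : Matrix (Jx c l) (Jx c l) ℂ) := by
    simp [tr]
  -- the projection
  have hP : IsPr (Θ * Θᴴ) := by
    refine ⟨by rw [Matrix.conjTranspose_mul, Matrix.conjTranspose_conjTranspose], ?_⟩
    rw [Matrix.mul_assoc, ← Matrix.mul_assoc Θᴴ, hΘ, Matrix.one_mul]
  have htP : tr (Θ * Θᴴ) = (Fintype.card (Jx c l) : ℝ) := by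
    rw [tr_mul_comm, hΘ, hcard]
  have hd : (Fintype.card (Jx c l) : ℝ) ≤ d := by
    rw [← htP, ← tr_one d]
    exact Le_tr (pr_le_one hP)
  -- step 1
  have s1 : ∀ s, hs (Ut c l b (u s) * Y - Y * Ut c l b (u s)) ≤
      3 * (hs ((u s)ᴴ * Θ - Θ * (Ut c l b (u s))ᴴ) + hs (u s * x - x * u s) +
        hs (u s * Θ - Θ * Ut c l b (u s))) := by
    intro s
    set V := Ut c l b (u s) with hV
    have e : V * Y - Y * V = (V * Θᴴ - Θᴴ * u s) * x * Θ + Θᴴ * (u s * x - x * u s) * Θ +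
        Θᴴ * x * (u s * Θ - Θ * V) := by
      rw [hYdef]
      simp only [Matrix.mul_sub, Matrix.sub_mul, Matrix.mul_assoc]
      abel
    have a1 : hs ((V * Θᴴ - Θᴴ * u s) * x * Θ) ≤ hs ((u s)ᴴ * Θ - Θ * Vᴴ) := by
      refine (hs_mul_le_right (ct_iso hΘ) _).trans ((hs_mul_le_right hx _).trans (le_of_eq ?_))
      rw [← hs_conjTranspose, Matrix.conjTranspose_sub, Matrix.conjTranspose_mul,
        Matrix.conjTranspose_mul, Matrix.conjTranspose_conjTranspose, hs_sub_comm]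
    have a2 : hs (Θᴴ * (u s * x - x * u s) * Θ) ≤ hs (u s * x - x * u s) :=
      (hs_mul_le_right (ct_iso hΘ) _).trans (hs_mul_le (ct_iso' hΘ) _)
    have a3 : hs (Θᴴ * x * (u s * Θ - Θ * V)) ≤ hs (u s * Θ - Θ * V) :=
      hs_mul_le (ct_mul (ct_iso' hΘ) hx) _
    rw [e]
    refine (hs_add3_le _ _ _).trans ?_
    linarith
  have s2 : ∑ s, hs (Ut c l b (u s) * Y - Y * Ut c l b (u s)) ≤ 3 * (2 * ω + en u x) := by
    refine (Finset.sum_le_sum fun s _ => s1 s).trans ?_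
    rw [← Finset.mul_sum, Finset.sum_add_distrib, Finset.sum_add_distrib]
    have : ∑ s, hs (u s * x - x * u s) = en u x := rfl
    rw [this]
    linarith
  -- step 2
  have s3 : ∑ i, ∑ j, en u (xt c l b Y i j) ≤ 9 * (2 * ω + en u x) + 6 * ω' := by
    have e : ∑ i, ∑ j, en u (xt c l b Y i j) =
        ∑ s, ∑ i, ∑ j, hs (u s * xt c l b Y i j - xt c l b Y i j * u s) := by
      unfold en
      rw [Finset.sum_comm]
      conv_rhs => rw [Finset.sum_comm]
      rw [Finset.sum_comm]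
      refine Finset.sum_congr rfl fun i _ => ?_
      rw [Finset.sum_comm]
    rw [e]
    refine (Finset.sum_le_sum fun s _ => key1 c l b hb (u s) Y hY).trans ?_
    rw [← Finset.mul_sum, Finset.sum_add_distrib, Finset.sum_add_distrib]
    linarith
  -- step 3
  choose m hm0 hm1 using fun i j => key2 c l b hb u q hγ hC2 hζ hq hqb hGap hcr Y i j
  set Z : Matrix (Jx c l) (Jx c l) ℂ := fun x y =>
    if (x.2 : ℕ) = (y.2 : ℕ) then m x.1 y.1 else 0 with hZdef
  have hZ : Blk c l Z := ⟨fun i j => m i j, fun i j h => hm0 i j h, fun x y => rfl⟩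
  have hYc : hs Y ≤ (d : ℝ) := by
    have h5 := hs_mul_le hY (1 : Matrix (Jx c l) (Jx c l) ℂ)
    rw [Matrix.mul_one] at h5
    have h6 : hs (1 : Matrix (Jx c l) (Jx c l) ℂ) = (Fintype.card (Jx c l) : ℝ) := by
      rw [hs_eq_tr, Matrix.conjTranspose_one, Matrix.one_mul, hcard]
    linarith
  have s4 : hs (Y - Z) ≤ (C2 + 1 / γ) * (9 * (2 * ω + en u x) + 6 * ω') + C2 * ζ * d := by
    rw [hs_bl]
    have e : ∀ i j, bl (Y - Z) i j = bl Y i j - m i j • Ei (l (c i)) (l (c j)) := by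
      intro i j
      ext p r
      change Y ⟨i, p⟩ ⟨j, r⟩ - (if (p : ℕ) = (r : ℕ) then m i j else 0) =
        Y ⟨i, p⟩ ⟨j, r⟩ - m i j * (if (p : ℕ) = (r : ℕ) then 1 else 0)
      rw [mul_ite, mul_one, mul_zero]
    simp only [e]
    have h5 : ∑ i, ∑ j, hs (bl Y i j - m i j • Ei (l (c i)) (l (c j))) ≤
        ∑ i, ∑ j, ((C2 + 1 / γ) * en u (xt c l b Y i j) + C2 * ζ * hs (bl Y i j)) :=
      Finset.sum_le_sum fun i _ => Finset.sum_le_sum fun j _ => hm1 i j
    refine h5.trans ?_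
    simp only [Finset.sum_add_distrib, ← Finset.mul_sum]
    rw [← hs_bl]
    have h6 : 0 ≤ C2 + 1 / γ := by positivity
    have h7 : 0 ≤ C2 * ζ := by positivity
    exact add_le_add (mul_le_mul_of_nonneg_left s3 h6) (mul_le_mul_of_nonneg_left hYc h7)
  refine ⟨ce c l Y, blk_ce c l Y, ct_ce c l hY, ?_⟩
  have s5 : hs (Y - ce c l Y) ≤ (C2 + 1 / γ) * (9 * (2 * ω + en u x) + 6 * ω') + C2 * ζ * d :=
    (hs_ce_le c l Y hZ).trans s4
  -- step 5
  set P := Θ * Θᴴ with hPdef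
  have e : x - Θ * ce c l Y * Θᴴ = ((1 - P) * x + P * (x * (1 - P))) +
      Θ * (Y - ce c l Y) * Θᴴ := by
    have e1 : Θ * (Y - ce c l Y) * Θᴴ = P * x * P - Θ * ce c l Y * Θᴴ := by
      rw [hYdef, hPdef]
      simp only [Matrix.mul_sub, Matrix.sub_mul, Matrix.mul_assoc]
    rw [e1]
    simp only [Matrix.mul_sub, Matrix.sub_mul, Matrix.mul_one, Matrix.one_mul, Matrix.mul_assoc]
    abel
  have h1P : hs (1 - P : Mt d) = d - Fintype.card (Jx c l) := by
    rw [← pr_tr_eq_hs (pr_compl hP), tr_sub, tr_one, htP]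
  have b1 : hs ((1 - P) * x) ≤ d - Fintype.card (Jx c l) := by
    rw [← h1P]
    exact hs_mul_le_right hx _
  have b2 : hs (P * (x * (1 - P))) ≤ d - Fintype.card (Jx c l) := by
    refine (hs_pr_mul_le_self hP _).trans ?_
    rw [← h1P]
    exact hs_mul_le hx _
  have b3 := hs_add_le ((1 - P) * x) (P * (x * (1 - P)))
  have b4 := hs_add_le ((1 - P) * x + P * (x * (1 - P))) (Θ * (Y - ce c l Y) * Θᴴ)
  have b5 : hs (Θ * (Y - ce c l Y) * Θᴴ) = hs (Y - ce c l Y) := hs_sandwich hΘ hΘ _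
  rw [e]
  rw [b5] at b4
  linarith

end

end Pool.Agent.W683.RC.AS2
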